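import Mathlib

/-!
UniformlySmoothC01: definitions of the statement
-/

open Filter Topology Set

namespace Pool.H99.MV.UniformlySmoothC01

/-- The modulus of smoothness `ρ_X(t) = sup {(‖x + t y‖ + ‖x - t y‖)/2 - 1 : ‖x‖ = ‖y‖ = 1}`. -/
noncomputable def smoothMod (𝕜 : Type*) [RCLike 𝕜] (X : Type*) [NormedAddCommGroup X]
    [NormedSpace 𝕜 X] (t : ℝ) : ℝ :=
  sSup {r : ℝ | ∃ x y : X, ‖x‖ = 1 ∧ ‖y‖ = 1 ∧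
    r = (‖x + (t : 𝕜) • y‖ + ‖x - (t : 𝕜) • y‖) / 2 - 1}

/-- `X` is uniformly smooth: `ρ_X(t)/t → 0` as `t → 0⁺`. -/
def UniformlySmooth (𝕜 : Type*) [RCLike 𝕜] (X : Type*) [NormedAddCommGroup X]
    [NormedSpace 𝕜 X] : Prop :=
  Tendsto (fun t : ℝ => smoothMod 𝕜 X t / t) (𝓝[>] 0) (𝓝 0)

/-- `T` is `ε`-isometric: `(1-ε)‖x‖ ≤ ‖T x‖ ≤ (1+ε)‖x‖` for all `x`; `ε = 0` means isometric. -/
def EpsIsometric {𝕜 : Type*} [RCLike 𝕜] {X Y : Type*} [NormedAddCommGroup X] [NormedSpace 𝕜 X]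
    [NormedAddCommGroup Y] [NormedSpace 𝕜 Y] (ε : ℝ) (T : X →L[𝕜] Y) : Prop :=
  ∀ x, (1 - ε) * ‖x‖ ≤ ‖T x‖ ∧ ‖T x‖ ≤ (1 + ε) * ‖x‖

/-- The isometric approximation property of `𝔹(X, Y)`: there is `δ : (0,1) → [0,∞)` with
`δ(ε) → 0` as `ε → 0` such that every `ε`-isometric `T`, `0 < ε < 1`, is within `δ(ε)` of an
isometric operator. -/
def IAP (𝕜 : Type*) [RCLike 𝕜] (X Y : Type*) [NormedAddCommGroup X] [NormedSpace 𝕜 X]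
    [NormedAddCommGroup Y] [NormedSpace 𝕜 Y] : Prop :=
  ∃ δ : ℝ → ℝ, (∀ ε ∈ Ioo (0:ℝ) 1, 0 ≤ δ ε) ∧ Tendsto δ (𝓝[>] 0) (𝓝 0) ∧
    ∀ ε ∈ Ioo (0:ℝ) 1, ∀ T : X →L[𝕜] Y, EpsIsometric ε T →
      ∃ V : X →L[𝕜] Y, EpsIsometric 0 V ∧ ‖T - V‖ ≤ δ ε

end Pool.H99.MV.UniformlySmoothC01
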