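import Mathlib
import Pool.Agent.H99.MV.UniformlySmoothC01Defs

/-!
UniformlySmoothC01: the proof
-/

open Filter Topology Set

namespace Pool.H99.MV.UniformlySmoothC01

section

/-- left neighbour of `t` in `K` -/
noncomputable def lft (K : Set ℝ) (t : ℝ) : ℝ := sSup (K ∩ Iic t)

/-- right neighbour of `t` in `K` -/
noncomputable def rgt (K : Set ℝ) (t : ℝ) : ℝ := sInf (K ∩ Ici t)

noncomputable def wt (K : Set ℝ) (t : ℝ) : ℝ := (t - lft K t) / (rgt K t - lft K t)

set_option linter.unusedSectionVars false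

section

variable {K : Set ℝ} (hK : IsCompact K) (h0 : (0:ℝ) ∈ K) (h1 : (1:ℝ) ∈ K)

include hK h0 h1

lemma lft_mem {t : ℝ} (ht : 0 ≤ t) : lft K t ∈ K ∩ Iic t := by
  have hc : IsCompact (K ∩ Iic t) := hK.inter_right isClosed_Iic
  exact hc.sSup_mem ⟨0, h0, ht⟩

lemma rgt_mem {t : ℝ} (ht : t ≤ 1) : rgt K t ∈ K ∩ Ici t := by
  have hc : IsCompact (K ∩ Ici t) := hK.inter_right isClosed_Ici
  exact hc.sInf_mem ⟨1, h1, ht⟩

lemma le_lft {t κ : ℝ} (hκ : κ ∈ K) (h : κ ≤ t) : κ ≤ lft K t :=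
  le_csSup (hK.inter_right isClosed_Iic).bddAbove ⟨hκ, h⟩

lemma rgt_le {t κ : ℝ} (hκ : κ ∈ K) (h : t ≤ κ) : rgt K t ≤ κ :=
  csInf_le (hK.inter_right isClosed_Ici).bddBelow ⟨hκ, h⟩

lemma lft_self {t : ℝ} (ht : t ∈ K) (h0t : 0 ≤ t) : lft K t = t :=
  le_antisymm (lft_mem hK h0 h1 h0t).2 (le_lft hK h0 h1 ht le_rfl)

lemma rgt_self {t : ℝ} (ht : t ∈ K) (h1t : t ≤ 1) : rgt K t = t :=
  le_antisymm (rgt_le hK h0 h1 ht le_rfl) (rgt_mem hK h0 h1 h1t).2

lemma wt_mem {t : ℝ} (ht : t ∈ Icc (0:ℝ) 1) : wt K t ∈ Icc (0:ℝ) 1 := by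
  have ha := (lft_mem hK h0 h1 ht.1).2
  have hb := (rgt_mem hK h0 h1 ht.2).2
  simp only [mem_Iic, mem_Ici] at ha hb
  unfold wt
  constructor
  · apply div_nonneg <;> linarith
  · rcases eq_or_lt_of_le (show 0 ≤ rgt K t - lft K t by linarith) with h | h
    · rw [← h, div_zero]; exact zero_le_one
    · rw [div_le_one h]; linarith

lemma wt_self {t : ℝ} (ht : t ∈ K) (h0t : 0 ≤ t) : wt K t = 0 := by
  unfold wt
  rw [lft_self hK h0 h1 ht h0t]; simp

end

/-- interpolation operator -/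
noncomputable def interp {E : Type*} [AddCommGroup E] [Module ℝ E] (K : Set ℝ) (u : ℝ → E)
    (t : ℝ) : E := (1 - wt K t) • u (lft K t) + wt K t • u (rgt K t)

lemma interp_self {E : Type*} [AddCommGroup E] [Module ℝ E] {K : Set ℝ} (hK : IsCompact K)
    (h0 : (0:ℝ) ∈ K) (h1 : (1:ℝ) ∈ K) (u : ℝ → E) {t : ℝ} (ht : t ∈ K) (h0t : 0 ≤ t) :
    interp K u t = u t := by
  unfold interp
  rw [wt_self hK h0 h1 ht h0t, lft_self hK h0 h1 ht h0t]; simp

lemma interp_continuousOn {E : Type*} [NormedAddCommGroup E] [NormedSpace ℝ E] {K : Set ℝ}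
    (hK : IsCompact K) (h0 : (0:ℝ) ∈ K) (h1 : (1:ℝ) ∈ K) (u : ℝ → E)
    (hu : ContinuousOn u K) : ContinuousOn (interp K u) (Icc 0 1) := by
  intro t0 ht0
  by_cases hmem : t0 ∈ K
  · -- a point of `K`
    obtain ⟨M, hM⟩ := hK.exists_bound_of_continuousOn hu
    have hM0 : 0 ≤ M := (norm_nonneg _).trans (hM 0 h0)
    rw [ContinuousWithinAt, interp_self hK h0 h1 u hmem ht0.1, Metric.tendsto_nhdsWithin_nhds]
    intro ε hε
    obtain ⟨δ1, hδ1, hd⟩ := Metric.continuousWithinAt_iff.1 (hu t0 hmem) (ε / 2) (by positivity)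
    set δ2 := δ1 / 2 * (ε / (ε + 8 * M)) with hδ2def
    have hq : ε / (ε + 8 * M) ≤ 1 := by rw [div_le_one (by positivity)]; linarith
    have hq0 : 0 < ε / (ε + 8 * M) := by positivity
    have hδ2 : 0 < δ2 := by positivity
    have hδ2' : δ2 ≤ δ1 / 2 := by
      calc δ2 ≤ δ1 / 2 * 1 := by rw [hδ2def]; gcongr
        _ = _ := mul_one _
    have hδ2M : 2 * δ2 / δ1 * (2 * M) < ε / 2 := by
      have e1 : 2 * δ2 / δ1 = ε / (ε + 8 * M) := by rw [hδ2def]; field_simp
      rw [e1, div_mul_eq_mul_div, div_lt_div_iff₀ (by positivity) (by norm_num)]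
      nlinarith
    refine ⟨δ2, hδ2, fun {t} ht htd => ?_⟩
    have ha := lft_mem hK h0 h1 ht.1
    have hb := rgt_mem hK h0 h1 ht.2
    have hw := wt_mem hK h0 h1 ht
    have hal := ha.2
    have hbl := hb.2
    simp only [mem_Iic, mem_Ici] at hal hbl
    rw [Real.dist_eq, abs_lt] at htd
    rw [dist_eq_norm]
    have hdec : interp K u t - u t0 = (1 - wt K t) • (u (lft K t) - u t0)
        + wt K t • (u (rgt K t) - u t0) := by
      unfold interp
      module
    rw [hdec]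
    -- closeness of neighbours
    have close : ∀ κ ∈ K, |κ - t0| < δ1 → ‖u κ - u t0‖ < ε / 2 := by
      intro κ hκ h
      rw [← dist_eq_norm]; exact hd hκ (by rw [Real.dist_eq]; exact h)
    have far : ∀ κ ∈ K, ‖u κ - u t0‖ ≤ 2 * M := by
      intro κ hκ
      have h3 := hM κ hκ
      have h4 := hM t0 hmem
      have := norm_sub_le (u κ) (u t0)
      linarith
    rcases le_total t0 t with h | h
    · have h2 : t0 ≤ lft K t := le_lft hK h0 h1 hmem h
      have ca : ‖u (lft K t) - u t0‖ < ε / 2 := close _ ha.1 (by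
        rw [abs_lt]; constructor <;> linarith [htd.1, htd.2])
      by_cases hbb : rgt K t < t0 + δ1
      · have cb : ‖u (rgt K t) - u t0‖ < ε / 2 := close _ hb.1 (by
          rw [abs_lt]; constructor <;> linarith [htd.1, htd.2])
        calc ‖(1 - wt K t) • (u (lft K t) - u t0) + wt K t • (u (rgt K t) - u t0)‖
            ≤ ‖(1 - wt K t) • (u (lft K t) - u t0)‖ + ‖wt K t • (u (rgt K t) - u t0)‖ :=
              norm_add_le _ _
          _ = (1 - wt K t) * ‖u (lft K t) - u t0‖ + wt K t * ‖u (rgt K t) - u t0‖ := by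
              rw [norm_smul, norm_smul, Real.norm_of_nonneg hw.1,
                Real.norm_of_nonneg (by linarith [hw.2])]
          _ ≤ (1 - wt K t) * (ε / 2) + wt K t * (ε / 2) := by
              have := hw.1; have h5 := hw.2
              gcongr
          _ = ε / 2 := by ring
          _ < ε := by linarith
      · push Not at hbb
        have hwt : wt K t ≤ 2 * δ2 / δ1 := by
          unfold wt
          rw [div_le_div_iff₀ (by linarith) hδ1]
          nlinarith [htd.1, htd.2]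
        calc ‖(1 - wt K t) • (u (lft K t) - u t0) + wt K t • (u (rgt K t) - u t0)‖
            ≤ ‖(1 - wt K t) • (u (lft K t) - u t0)‖ + ‖wt K t • (u (rgt K t) - u t0)‖ :=
              norm_add_le _ _
          _ = (1 - wt K t) * ‖u (lft K t) - u t0‖ + wt K t * ‖u (rgt K t) - u t0‖ := by
              rw [norm_smul, norm_smul, Real.norm_of_nonneg hw.1,
                Real.norm_of_nonneg (by linarith [hw.2])]
          _ ≤ 1 * (ε / 2) + 2 * δ2 / δ1 * (2 * M) := by
              have := hw.1; have h5 := hw.2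
              have h6 := far _ hb.1
              gcongr
              linarith
          _ < ε := by linarith
    · have h2 : rgt K t ≤ t0 := rgt_le hK h0 h1 hmem h
      have cb : ‖u (rgt K t) - u t0‖ < ε / 2 := close _ hb.1 (by
        rw [abs_lt]; constructor <;> linarith [htd.1, htd.2])
      by_cases haa : t0 - δ1 < lft K t
      · have ca : ‖u (lft K t) - u t0‖ < ε / 2 := close _ ha.1 (by
          rw [abs_lt]; constructor <;> linarith [htd.1, htd.2])
        calc ‖(1 - wt K t) • (u (lft K t) - u t0) + wt K t • (u (rgt K t) - u t0)‖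
            ≤ ‖(1 - wt K t) • (u (lft K t) - u t0)‖ + ‖wt K t • (u (rgt K t) - u t0)‖ :=
              norm_add_le _ _
          _ = (1 - wt K t) * ‖u (lft K t) - u t0‖ + wt K t * ‖u (rgt K t) - u t0‖ := by
              rw [norm_smul, norm_smul, Real.norm_of_nonneg hw.1,
                Real.norm_of_nonneg (by linarith [hw.2])]
          _ ≤ (1 - wt K t) * (ε / 2) + wt K t * (ε / 2) := by
              have := hw.1; have h5 := hw.2
              gcongr
          _ = ε / 2 := by ring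
          _ < ε := by linarith
      · push Not at haa
        have hwt : 1 - wt K t ≤ 2 * δ2 / δ1 := by
          have hpos : 0 < rgt K t - lft K t := by linarith [htd.1]
          have e1 : 1 - wt K t = (rgt K t - t) / (rgt K t - lft K t) := by
            unfold wt; field_simp; ring
          rw [e1, div_le_div_iff₀ hpos hδ1]
          nlinarith [htd.1, htd.2]
        calc ‖(1 - wt K t) • (u (lft K t) - u t0) + wt K t • (u (rgt K t) - u t0)‖
            ≤ ‖(1 - wt K t) • (u (lft K t) - u t0)‖ + ‖wt K t • (u (rgt K t) - u t0)‖ :=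
              norm_add_le _ _
          _ = (1 - wt K t) * ‖u (lft K t) - u t0‖ + wt K t * ‖u (rgt K t) - u t0‖ := by
              rw [norm_smul, norm_smul, Real.norm_of_nonneg hw.1,
                Real.norm_of_nonneg (by linarith [hw.2])]
          _ ≤ 2 * δ2 / δ1 * (2 * M) + 1 * (ε / 2) := by
              have := hw.1; have h5 := hw.2
              have h6 := far _ ha.1
              gcongr
          _ < ε := by linarith
  · -- a point of a gap
    have ha := lft_mem hK h0 h1 ht0.1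
    have hb := rgt_mem hK h0 h1 ht0.2
    have hal : lft K t0 < t0 := lt_of_le_of_ne ha.2 (fun h => hmem (h ▸ ha.1))
    have hbl : t0 < rgt K t0 := lt_of_le_of_ne hb.2 (fun h => hmem (h ▸ hb.1))
    set a := lft K t0 with haD
    set b := rgt K t0 with hbD
    have hlft : ∀ t ∈ Ioo a b, lft K t = a := by
      intro t ht
      apply le_antisymm
      · have hm := lft_mem (t := t) hK h0 h1 (by
          have : 0 ≤ a := le_lft hK h0 h1 h0 ht0.1
          linarith [ht.1])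
        rcases le_total (lft K t) t0 with h | h
        · exact le_lft hK h0 h1 hm.1 h
        · have h3 : b ≤ lft K t := rgt_le hK h0 h1 hm.1 h
          have h4 := hm.2
          simp only [mem_Iic] at h4
          linarith [ht.2]
      · exact le_lft hK h0 h1 ha.1 ht.1.le
    have hrgt : ∀ t ∈ Ioo a b, rgt K t = b := by
      intro t ht
      apply le_antisymm
      · exact rgt_le hK h0 h1 hb.1 ht.2.le
      · have hm := rgt_mem (t := t) hK h0 h1 (by
          have : b ≤ 1 := rgt_le hK h0 h1 h1 ht0.2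
          linarith [ht.2])
        rcases le_total t0 (rgt K t) with h | h
        · exact rgt_le hK h0 h1 hm.1 h
        · have h3 : rgt K t ≤ a := le_lft hK h0 h1 hm.1 h
          have h4 := hm.2
          simp only [mem_Ici] at h4
          linarith [ht.1]
    have hev : interp K u =ᶠ[𝓝 t0] fun t => (1 - (t - a) / (b - a)) • u a + ((t - a) / (b - a)) • u b := by
      filter_upwards [Ioo_mem_nhds hal hbl] with t ht
      unfold interp wt
      rw [hlft t ht, hrgt t ht]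
    have hc : ContinuousAt (interp K u) t0 := by
      rw [continuousAt_congr hev]
      fun_prop
    exact hc.continuousWithinAt

/-- Only finitely many long gaps: distinct left (or right) neighbours must be close. -/
lemma gap_left {K : Set ℝ} (hK : IsCompact K) (h0 : (0:ℝ) ∈ K) (h1 : (1:ℝ) ∈ K) {s t : ℝ}
    (ht : t ∈ Icc (0:ℝ) 1) (hlt : lft K s < lft K t) :
    s - lft K s ≤ lft K t - lft K s := by
  have hm := lft_mem hK h0 h1 ht.1
  by_contra h
  push Not at h
  have h2 : lft K t ≤ s := by linarith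
  have := le_lft hK h0 h1 hm.1 h2
  linarith

lemma gap_right {K : Set ℝ} (hK : IsCompact K) (h0 : (0:ℝ) ∈ K) (h1 : (1:ℝ) ∈ K) {s t : ℝ}
    (ht : t ∈ Icc (0:ℝ) 1) (hlt : rgt K t < rgt K s) :
    rgt K s - s ≤ rgt K s - rgt K t := by
  have hm := rgt_mem hK h0 h1 ht.2
  by_contra h
  push Not at h
  have h2 : s ≤ rgt K t := by linarith
  have := rgt_le hK h0 h1 hm.1 h2
  linarith

/-- the Cantor cube -/
abbrev Om := ℕ → ℕ → Bool

/-- embedding of the Cantor cube in `[1/3, 2/3]` -/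
noncomputable def pos (l : Om) : ℝ :=
  (1 + (cantorSetHomeomorphNatToBool.symm (cantorSpaceHomeomorphNatToCantorSpace.symm l) : ℝ)) / 3

lemma pos_cont : Continuous pos := by
  unfold pos
  have h : Continuous fun l : Om =>
      (cantorSetHomeomorphNatToBool.symm (cantorSpaceHomeomorphNatToCantorSpace.symm l) : ℝ) :=
    continuous_subtype_val.comp ((Homeomorph.continuous _).comp (Homeomorph.continuous _))
  fun_prop

lemma pos_inj : Function.Injective pos := by
  intro l l' h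
  unfold pos at h
  have h2 : (cantorSetHomeomorphNatToBool.symm (cantorSpaceHomeomorphNatToCantorSpace.symm l) : ℝ)
      = (cantorSetHomeomorphNatToBool.symm (cantorSpaceHomeomorphNatToCantorSpace.symm l') : ℝ) := by
    linarith
  have h3 := Subtype.ext h2
  exact (Homeomorph.injective _) ((Homeomorph.injective _) h3)

lemma pos_mem (l : Om) : pos l ∈ Icc (1/3 : ℝ) (2/3) := by
  unfold pos
  have := cantorSet_subset_unitInterval
    (cantorSetHomeomorphNatToBool.symm (cantorSpaceHomeomorphNatToCantorSpace.symm l)).2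
  constructor <;> linarith [this.1, this.2]

lemma pos_emb : IsClosedEmbedding pos := pos_cont.isClosedEmbedding pos_inj

noncomputable def posinv : ℝ → Om := Function.invFun pos

lemma posinv_pos (l : Om) : posinv (pos l) = l := Function.leftInverse_invFun pos_inj l

lemma posinv_cont : ContinuousOn posinv (range pos) := by
  rw [continuousOn_iff_continuous_domRestrict]
  have h := (pos_emb.isEmbedding.toHomeomorph).symm.continuous
  convert h using 1
  ext x
  obtain ⟨l, hl⟩ := x.2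
  have e1 : x = pos_emb.isEmbedding.toHomeomorph l := by
    apply Subtype.ext; rw [← hl]; rfl
  rw [e1, Homeomorph.symm_apply_apply]
  have e2 : ((pos_emb.isEmbedding.toHomeomorph l : range pos) : ℝ) = pos l := rfl
  simp only [domRestrict_apply, e2, posinv_pos]

def base (Z : Set Om) : Set ℝ := {0, 1} ∪ pos '' Z

lemma base_compact {Z : Set Om} (hZ : IsClosed Z) : IsCompact (base Z) :=
  (Set.toFinite _).isCompact.union (hZ.isCompact.image pos_cont)

lemma zero_mem_base (Z : Set Om) : (0:ℝ) ∈ base Z := Or.inl (by simp)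

lemma one_mem_base (Z : Set Om) : (1:ℝ) ∈ base Z := Or.inl (by simp)

open Classical in
noncomputable def lift {E : Type*} (w : Om → E) (e0 : E) (t : ℝ) : E :=
  if t ∈ Icc (1/3 : ℝ) (2/3) then w (posinv t) else e0

lemma lift_pos {E : Type*} (w : Om → E) (e0 : E) (l : Om) : lift w e0 (pos l) = w l := by
  unfold lift
  rw [if_pos (pos_mem l), posinv_pos]

lemma lift_zero {E : Type*} (w : Om → E) (e0 : E) : lift w e0 0 = e0 := by
  unfold lift
  rw [if_neg (by simp)]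

lemma lift_one {E : Type*} (w : Om → E) (e0 : E) : lift w e0 1 = e0 := by
  unfold lift
  rw [if_neg]
  simp only [mem_Icc, not_and, not_le]
  intro _; norm_num

lemma lift_continuousOn {E : Type*} [TopologicalSpace E] {Z : Set Om} (hZ : IsClosed Z)
    {w : Om → E} (hw : ContinuousOn w Z) (e0 : E) : ContinuousOn (lift w e0) (base Z) := by
  unfold base
  apply ContinuousOn.union_of_isClosed _ _ (Set.toFinite _).isClosed
    (hZ.isCompact.image pos_cont).isClosed
  · apply (continuousOn_const (c := e0)).congr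
    rintro x hx
    rcases hx with rfl | hx
    · exact lift_zero _ _
    · rw [mem_singleton_iff] at hx
      subst hx; exact lift_one _ _
  · have h1 : ContinuousOn (fun t => w (posinv t)) (pos '' Z) := by
      apply hw.comp (posinv_cont.mono (image_subset_range _ _))
      rintro _ ⟨l, hl, rfl⟩
      rw [posinv_pos]; exact hl
    apply h1.congr
    rintro _ ⟨l, hl, rfl⟩
    simp only [lift_pos, posinv_pos]

/-- a space filling curve onto a compact convex set -/
lemma peano {E : Type*} [NormedAddCommGroup E] [NormedSpace ℝ E] {B : Set E} (hB : IsCompact B)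
    (hconv : Convex ℝ B) (hne : B.Nonempty) :
    ∃ p : ℝ → E, Continuous p ∧ (∀ t, p t ∈ B) ∧ ∀ z ∈ B, ∃ t ∈ Icc (0:ℝ) 1, p t = z := by
  have : Nonempty B := hne.to_subtype
  have : CompactSpace B := isCompact_iff_compactSpace.1 hB
  obtain ⟨c, hc, hcs⟩ := exists_nat_bool_continuous_surjective_of_compact B
  obtain ⟨e0, he0⟩ := hne
  set w : Om → E := fun l => (c (cantorSpaceHomeomorphNatToCantorSpace.symm l) : E) with hw
  have hwc : Continuous w := continuous_subtype_val.comp (hc.comp (Homeomorph.continuous _))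
  have hK := base_compact (Z := univ) isClosed_univ
  set K := base univ with hKdef
  have h0 : (0:ℝ) ∈ K := zero_mem_base _
  have h1 : (1:ℝ) ∈ K := one_mem_base _
  have hu := lift_continuousOn isClosed_univ hwc.continuousOn e0
  have hint := interp_continuousOn hK h0 h1 (lift w e0) hu
  set pr : ℝ → ℝ := fun t => max 0 (min 1 t) with hpr
  have hprc : Continuous pr := by fun_prop
  have hprm : ∀ t, pr t ∈ Icc (0:ℝ) 1 := fun t =>
    ⟨le_max_left _ _, max_le zero_le_one (min_le_left _ _)⟩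
  have huB : ∀ κ ∈ K, lift w e0 κ ∈ B := by
    rintro κ (hκ | ⟨l, -, rfl⟩)
    · rcases hκ with rfl | hκ
      · rw [lift_zero]; exact he0
      · rw [mem_singleton_iff] at hκ
        subst hκ; rw [lift_one]; exact he0
    · rw [lift_pos]; exact (c _).2
  refine ⟨fun t => interp K (lift w e0) (pr t), ?_, ?_, ?_⟩
  · exact hint.comp_continuous hprc hprm
  · intro t
    have hm := wt_mem hK h0 h1 (hprm t)
    exact hconv (huB _ (lft_mem hK h0 h1 (hprm t).1).1) (huB _ (rgt_mem hK h0 h1 (hprm t).2).1)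
      (by linarith [hm.2]) hm.1 (by ring)
  · intro z hz
    obtain ⟨b, hb⟩ := hcs ⟨z, hz⟩
    set l := cantorSpaceHomeomorphNatToCantorSpace b with hl
    have hpm := pos_mem l
    refine ⟨pos l, ⟨by linarith [hpm.1], by linarith [hpm.2]⟩, ?_⟩
    have e1 : pr (pos l) = pos l := by
      simp only [hpr]
      rw [min_eq_right (by linarith [hpm.2]), max_eq_right (by linarith [hpm.1])]
    simp only [e1]
    rw [interp_self hK h0 h1 _ (Or.inr ⟨l, mem_univ _, rfl⟩) (by linarith [hpm.1]), lift_pos]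
    simp only [hw, hl, Homeomorph.symm_apply_apply, hb]

end

section

variable {𝕜 : Type*} [RCLike 𝕜] {X : Type*} [NormedAddCommGroup X] [NormedSpace 𝕜 X]

lemma smoothMod_ge {t : ℝ} (ht : 0 ≤ t) {x y : X} (hx : ‖x‖ = 1) (hy : ‖y‖ = 1) :
    (‖x + (t : 𝕜) • y‖ + ‖x - (t : 𝕜) • y‖) / 2 - 1 ≤ smoothMod 𝕜 X t := by
  apply le_csSup
  · refine ⟨t, ?_⟩
    rintro r ⟨x, y, hx, hy, rfl⟩
    have h1 : ‖x + (t : 𝕜) • y‖ ≤ 1 + t := by
      refine (norm_add_le _ _).trans ?_
      rw [norm_smul, hx, hy]; simp [abs_of_nonneg ht]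
    have h2 : ‖x - (t : 𝕜) • y‖ ≤ 1 + t := by
      refine (norm_sub_le _ _).trans ?_
      rw [norm_smul, hx, hy]; simp [abs_of_nonneg ht]
    linarith
  · exact ⟨x, y, hx, hy, rfl⟩

lemma us_exists (h : UniformlySmooth 𝕜 X) {ε : ℝ} (hε : 0 < ε) :
    ∃ t : ℝ, 0 < t ∧ ∀ x y : X, ‖x‖ = 1 → ‖y‖ = 1 →
      ‖x + (t : 𝕜) • y‖ + ‖x - (t : 𝕜) • y‖ ≤ 2 + 2 * ε * t := by
  have h1 : ∀ᶠ t in 𝓝[>] (0:ℝ), smoothMod 𝕜 X t / t < ε := h.eventually (gt_mem_nhds hε)
  have h2 : ∀ᶠ t in 𝓝[>] (0:ℝ), t ∈ Ioi (0:ℝ) := self_mem_nhdsWithin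
  obtain ⟨t, ht1, ht2⟩ := (h1.and h2).exists
  have ht2' : 0 < t := ht2
  refine ⟨t, ht2', fun x y hx hy => ?_⟩
  have h3 := smoothMod_ge (𝕜 := 𝕜) ht2'.le hx hy
  rw [div_lt_iff₀ ht2'] at ht1
  nlinarith

/-- slices of the dual ball have small diameter -/
lemma slice (h : UniformlySmooth 𝕜 X) {ε : ℝ} (hε : 0 < ε) :
    ∃ κ : ℝ, 0 < κ ∧ ∀ (f g : X →L[𝕜] 𝕜) (x : X), ‖f‖ ≤ 1 → ‖g‖ ≤ 1 → ‖x‖ = 1 →
      1 - κ < RCLike.re (f x) → 1 - κ < RCLike.re (g x) → ‖f - g‖ ≤ ε := by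
  obtain ⟨t, ht, hxy⟩ := us_exists h (show 0 < ε / 4 by positivity)
  refine ⟨ε * t / 4, by positivity, fun f g x hf hg hx hfx hgx => ?_⟩
  -- real part bound
  have key : ∀ y : X, ‖y‖ = 1 → RCLike.re ((f - g) y) ≤ ε := by
    intro y hy
    have h1 := hxy x y hx hy
    have h2 : RCLike.re (f (x + (t : 𝕜) • y)) ≤ ‖x + (t : 𝕜) • y‖ := by
      calc RCLike.re (f (x + (t : 𝕜) • y)) ≤ ‖f (x + (t : 𝕜) • y)‖ := RCLike.re_le_norm _
        _ ≤ ‖f‖ * ‖x + (t : 𝕜) • y‖ := f.le_opNorm _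
        _ ≤ 1 * ‖x + (t : 𝕜) • y‖ := by gcongr
        _ = _ := one_mul _
    have h3 : RCLike.re (g (x - (t : 𝕜) • y)) ≤ ‖x - (t : 𝕜) • y‖ := by
      calc RCLike.re (g (x - (t : 𝕜) • y)) ≤ ‖g (x - (t : 𝕜) • y)‖ := RCLike.re_le_norm _
        _ ≤ ‖g‖ * ‖x - (t : 𝕜) • y‖ := g.le_opNorm _
        _ ≤ 1 * ‖x - (t : 𝕜) • y‖ := by gcongr
        _ = _ := one_mul _
    have e1 : RCLike.re (f (x + (t : 𝕜) • y)) = RCLike.re (f x) + t * RCLike.re (f y) := by
      rw [map_add, map_smul, smul_eq_mul, map_add, RCLike.re_ofReal_mul]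
    have e2 : RCLike.re (g (x - (t : 𝕜) • y)) = RCLike.re (g x) - t * RCLike.re (g y) := by
      rw [map_sub, map_smul, smul_eq_mul, map_sub, RCLike.re_ofReal_mul]
    rw [e1] at h2
    rw [e2] at h3
    have e3 : RCLike.re ((f - g) y) = RCLike.re (f y) - RCLike.re (g y) := by
      rw [_root_.sub_apply, map_sub]
    rw [e3]
    have h4 : t * (RCLike.re (f y) - RCLike.re (g y)) ≤ t * ε := by nlinarith
    exact le_of_mul_le_mul_left h4 ht
  apply ContinuousLinearMap.opNorm_le_bound _ hε.le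
  intro z
  by_cases hz : z = 0
  · simp [hz]
  have hz' : 0 < ‖z‖ := norm_pos_iff.2 hz
  obtain ⟨c, hc, hcz⟩ := RCLike.exists_norm_eq_mul_self ((f - g) z)
  set y : X := (c * ((‖z‖⁻¹ : ℝ) : 𝕜)) • z with hy
  have hy1 : ‖y‖ = 1 := by
    rw [hy, norm_smul, norm_mul, hc, one_mul, RCLike.norm_ofReal, abs_of_pos (by positivity),
      inv_mul_cancel₀ hz'.ne']
  have h1 := key y hy1
  have h2 : (f - g) y = ((‖z‖⁻¹ * ‖(f - g) z‖ : ℝ) : 𝕜) := by
    rw [hy, map_smul, smul_eq_mul, RCLike.ofReal_mul, hcz]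
    ring
  rw [h2, RCLike.ofReal_re, inv_mul_le_iff₀ hz'] at h1
  linarith

/-- slices up to a unimodular factor -/
lemma slice' (h : UniformlySmooth 𝕜 X) {ε : ℝ} (hε : 0 < ε) :
    ∃ κ : ℝ, 0 < κ ∧ ∀ (f g : X →L[𝕜] 𝕜) (x : X), ‖f‖ ≤ 1 → ‖g‖ ≤ 1 → ‖x‖ = 1 →
      1 - κ < ‖f x‖ → 1 - κ < RCLike.re (g x) → ∃ c : 𝕜, ‖c‖ = 1 ∧ ‖c • f - g‖ ≤ ε := by
  obtain ⟨κ, hκ, hs⟩ := slice h hε
  refine ⟨κ, hκ, fun f g x hf hg hx hfx hgx => ?_⟩
  obtain ⟨c, hc, hcz⟩ := RCLike.exists_norm_eq_mul_self (f x)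
  refine ⟨c, hc, hs (c • f) g x ?_ hg hx ?_ hgx⟩
  · rw [norm_smul, hc, one_mul]; exact hf
  · rw [_root_.smul_apply, smul_eq_mul, ← hcz, RCLike.ofReal_re]; exact hfx

/-- near-norming vectors -/
lemma exists_near_norming (f : X →L[𝕜] 𝕜) (hf : ‖f‖ = 1) {κ : ℝ} (hκ : 0 < κ) :
    ∃ x : X, ‖x‖ = 1 ∧ 1 - κ < RCLike.re (f x) := by
  obtain ⟨x, hx1, hx2⟩ : ∃ x : X, ‖x‖ < 1 ∧ max (1 - κ) 0 < ‖f x‖ := by
    apply ContinuousLinearMap.exists_lt_apply_of_lt_opNorm
    rw [hf]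
    exact max_lt (by linarith) one_pos
  have hfx : 0 < ‖f x‖ := lt_of_le_of_lt (le_max_right _ _) hx2
  have hx0 : x ≠ 0 := by rintro rfl; simp at hfx
  have hx' : 0 < ‖x‖ := norm_pos_iff.2 hx0
  obtain ⟨c, hc, hcz⟩ := RCLike.exists_norm_eq_mul_self (f x)
  refine ⟨(c * ((‖x‖⁻¹ : ℝ) : 𝕜)) • x, ?_, ?_⟩
  · rw [norm_smul, norm_mul, hc, one_mul, RCLike.norm_ofReal, abs_of_pos (by positivity),
      inv_mul_cancel₀ hx'.ne']
  · have h2 : f ((c * ((‖x‖⁻¹ : ℝ) : 𝕜)) • x) = ((‖x‖⁻¹ * ‖f x‖ : ℝ) : 𝕜) := by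
      rw [map_smul, smul_eq_mul, RCLike.ofReal_mul, hcz]; ring
    rw [h2, RCLike.ofReal_re]
    have h3 : 1 ≤ ‖x‖⁻¹ := (one_le_inv₀ hx').2 hx1.le
    calc 1 - κ ≤ max (1 - κ) 0 := le_max_left _ _
      _ < ‖f x‖ := hx2
      _ = 1 * ‖f x‖ := (one_mul _).symm
      _ ≤ ‖x‖⁻¹ * ‖f x‖ := by gcongr

/-- the dual of a separable uniformly smooth space is separable -/
lemma dual_separable (h : UniformlySmooth 𝕜 X) [TopologicalSpace.SeparableSpace X] :
    TopologicalSpace.SeparableSpace (X →L[𝕜] 𝕜) := by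
  -- norming functionals of a dense sequence
  obtain ⟨D, hDc, hDd⟩ := TopologicalSpace.exists_countable_dense X
  have hN : ∀ x : X, ∃ g : X →L[𝕜] 𝕜, ‖g‖ ≤ 1 ∧ g x = ‖x‖ := fun x => exists_dual_vector'' 𝕜 x
  choose N hN1 hN2 using hN
  set S : Set (X →L[𝕜] 𝕜) := N '' D with hS
  have hSc : S.Countable := hDc.image _
  have key : ∀ f : X →L[𝕜] 𝕜, ‖f‖ = 1 → f ∈ closure S := by
    intro f hf
    rw [Metric.mem_closure_iff]
    intro ε hε
    obtain ⟨κ, hκ, hs⟩ := slice h (show 0 < ε / 2 by positivity)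
    obtain ⟨x, hx, hfx⟩ := exists_near_norming f hf (show 0 < κ / 2 by positivity)
    -- choose a point of `D` near `x`
    set δ := min (κ / 8) (1 / 2) with hδ
    have hδ0 : 0 < δ := by positivity
    obtain ⟨d, hdD, hd⟩ := Metric.mem_closure_iff.1 (hDd x) δ hδ0
    rw [dist_eq_norm] at hd
    have hd1 : |‖d‖ - 1| < δ := by
      rw [← hx]
      have := abs_norm_sub_norm_le d x
      rw [norm_sub_rev] at hd
      linarith
    rw [abs_lt] at hd1
    have hδ2 : δ ≤ 1 / 2 := min_le_right _ _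
    have hδ3 : δ ≤ κ / 8 := min_le_left _ _
    have hd0 : 0 < ‖d‖ := by linarith [hd1.1]
    refine ⟨N d, ⟨d, hdD, rfl⟩, ?_⟩
    rw [dist_eq_norm]
    refine lt_of_le_of_lt (hs f (N d) (((‖d‖⁻¹ : ℝ) : 𝕜) • d) hf.le (hN1 d) ?_ ?_ ?_) (by linarith)
    · rw [norm_smul, RCLike.norm_ofReal, abs_of_pos (by positivity), inv_mul_cancel₀ hd0.ne']
    · rw [map_smul, smul_eq_mul, RCLike.re_ofReal_mul]
      have h1 : RCLike.re (f x) - δ ≤ RCLike.re (f d) := by
        have h2 : RCLike.re (f (x - d)) ≤ ‖x - d‖ := by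
          calc RCLike.re (f (x - d)) ≤ ‖f (x - d)‖ := RCLike.re_le_norm _
            _ ≤ ‖f‖ * ‖x - d‖ := f.le_opNorm _
            _ = _ := by rw [hf, one_mul]
        rw [map_sub, map_sub] at h2
        linarith
      rw [inv_mul_eq_div, lt_div_iff₀ hd0]
      have hre : RCLike.re (f d) ≤ ‖d‖ := by
        calc RCLike.re (f d) ≤ ‖f d‖ := RCLike.re_le_norm _
          _ ≤ ‖f‖ * ‖d‖ := f.le_opNorm _
          _ = _ := by rw [hf, one_mul]
      rcases le_total (1 - κ) 0 with h4 | h4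
      · have : 0 < RCLike.re (f d) ∨ RCLike.re (f d) ≤ 0 := lt_or_ge _ _
        rcases this with h5 | h5
        · nlinarith
        · nlinarith [hd1.1, hd1.2]
      · nlinarith [hd1.1, hd1.2]
    · rw [map_smul, smul_eq_mul, RCLike.re_ofReal_mul, hN2, RCLike.ofReal_re,
        inv_mul_cancel₀ hd0.ne']
      linarith
  -- scaling
  set Q : Set 𝕜 := (TopologicalSpace.exists_countable_dense 𝕜).choose with hQ
  have hQc : Q.Countable := (TopologicalSpace.exists_countable_dense 𝕜).choose_spec.1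
  have hQd : Dense Q := (TopologicalSpace.exists_countable_dense 𝕜).choose_spec.2
  refine ⟨⟨(fun p : 𝕜 × (X →L[𝕜] 𝕜) => p.1 • p.2) '' (Q ×ˢ (S ∪ {0})), ?_, ?_⟩⟩
  · exact (hQc.prod (hSc.union (countable_singleton _))).image _
  · intro f
    have hcont : Continuous fun p : 𝕜 × (X →L[𝕜] 𝕜) => p.1 • p.2 := continuous_fst.smul continuous_snd
    have hmem : ∃ p : 𝕜 × (X →L[𝕜] 𝕜), p ∈ closure (Q ×ˢ (S ∪ {0})) ∧ p.1 • p.2 = f := by
      by_cases hf : f = 0
      · refine ⟨((0 : 𝕜), (0 : X →L[𝕜] 𝕜)), ?_, by rw [hf]; ext z; simp⟩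
        rw [closure_prod_eq]
        exact ⟨hQd 0, subset_closure (Or.inr rfl)⟩
      · have hf' : 0 < ‖f‖ := norm_pos_iff.2 hf
        refine ⟨(((‖f‖ : ℝ) : 𝕜), (((‖f‖⁻¹ : ℝ) : 𝕜)) • f), ?_, ?_⟩
        · rw [closure_prod_eq]
          refine ⟨hQd _, closure_mono subset_union_left (key _ ?_)⟩
          rw [norm_smul, RCLike.norm_ofReal, abs_of_pos (by positivity), inv_mul_cancel₀ hf'.ne']
        · simp only
          rw [smul_smul, ← RCLike.ofReal_mul, mul_inv_cancel₀ hf'.ne', RCLike.ofReal_one, one_smul]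
    obtain ⟨p, hp, rfl⟩ := hmem
    exact (image_closure_subset_closure_image hcont) ⟨p, hp, rfl⟩

end

section

variable {𝕜 : Type*} [RCLike 𝕜] {X : Type*} [NormedAddCommGroup X] [NormedSpace 𝕜 X]

/-- a parametrisation of the dual ball of radius `R` by a closed subset of the Cantor cube -/
structure Par (𝕜 : Type*) [RCLike 𝕜] (X : Type*) [NormedAddCommGroup X] [NormedSpace 𝕜 X]
    (R : ℝ) where
  f : ℕ → X
  hf : DenseRange f
  q : ℕ → (ℕ → Bool) → 𝕜
  hqc : ∀ i, Continuous (q i)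
  hqr : ∀ i, range (q i) = Metric.closedBall 0 (R * ‖f i‖)

lemma exists_par [TopologicalSpace.SeparableSpace X] {R : ℝ} (hR : 0 ≤ R) :
    Nonempty (Par 𝕜 X R) := by
  set f : ℕ → X := TopologicalSpace.denseSeq X with hf
  have h : ∀ i, ∃ q : (ℕ → Bool) → 𝕜, Continuous q ∧ range q = Metric.closedBall 0 (R * ‖f i‖) := by
    intro i
    set B : Set 𝕜 := Metric.closedBall 0 (R * ‖f i‖) with hB
    have hne : Nonempty B := ⟨⟨0, by simp [hB]; positivity⟩⟩
    have hcs : CompactSpace B := isCompact_iff_compactSpace.1 (isCompact_closedBall _ _)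
    obtain ⟨c, hc, hcs⟩ := exists_nat_bool_continuous_surjective_of_compact B
    refine ⟨fun b => (c b : 𝕜), continuous_subtype_val.comp hc, ?_⟩
    ext z
    constructor
    · rintro ⟨b, rfl⟩; exact (c b).2
    · intro hz
      obtain ⟨b, hb⟩ := hcs ⟨z, hz⟩
      exact ⟨b, by simp [hb]⟩
  choose q hq1 hq2 using h
  exact ⟨⟨f, TopologicalSpace.denseRange_denseSeq X, q, hq1, hq2⟩⟩

variable {R : ℝ} (P : Par 𝕜 X R)

def LL : Set Om := {c | ∃ z : X →L[𝕜] 𝕜, ‖z‖ ≤ R ∧ ∀ i, P.q i (c i) = z (P.f i)}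

open Classical in
noncomputable def xx (c : Om) : X →L[𝕜] 𝕜 := if h : c ∈ LL P then h.choose else 0

lemma xx_norm {c : Om} (h : c ∈ LL P) : ‖xx P c‖ ≤ R := by
  unfold xx; rw [dif_pos h]; exact h.choose_spec.1

lemma xx_apply {c : Om} (h : c ∈ LL P) (i : ℕ) : P.q i (c i) = xx P c (P.f i) := by
  unfold xx; rw [dif_pos h]; exact h.choose_spec.2 i

lemma ext_dense {z z' : X →L[𝕜] 𝕜} (h : ∀ i, z (P.f i) = z' (P.f i)) : z = z' := by
  apply ContinuousLinearMap.coe_inj.1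
  apply DFunLike.coe_injective
  apply P.hf.equalizer z.continuous z'.continuous
  ext i
  exact h i

lemma xx_eq {c : Om} {z : X →L[𝕜] 𝕜} (hz : ‖z‖ ≤ R) (h : ∀ i, P.q i (c i) = z (P.f i)) :
    c ∈ LL P ∧ xx P c = z := by
  have hc : c ∈ LL P := ⟨z, hz, h⟩
  refine ⟨hc, ext_dense P fun i => ?_⟩
  rw [← xx_apply P hc, h]

lemma exists_coord {z : X →L[𝕜] 𝕜} (hz : ‖z‖ ≤ R) (i : ℕ) : ∃ b, P.q i b = z (P.f i) := by
  have : z (P.f i) ∈ range (P.q i) := by
    rw [P.hqr i, Metric.mem_closedBall, dist_zero_right]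
    exact (z.le_opNorm _).trans (by gcongr)
  exact this

lemma xx_surj {z : X →L[𝕜] 𝕜} (hz : ‖z‖ ≤ R) : ∃ c ∈ LL P, xx P c = z := by
  choose b hb using exists_coord P hz
  obtain ⟨h1, h2⟩ := xx_eq P hz (c := b) hb
  exact ⟨b, h1, h2⟩

lemma LL_closed : IsClosed (LL P) := by
  set W : Set (WeakDual 𝕜 X) := WeakDual.toStrongDual ⁻¹' Metric.closedBall 0 R with hW
  have hWc : IsCompact W := WeakDual.isCompact_closedBall 0 R
  set Γ : Set (Om × WeakDual 𝕜 X) := (univ ×ˢ W) ∩ ⋂ i, {p | P.q i (p.1 i) = p.2 (P.f i)} with hΓ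
  have hΓc : IsCompact Γ := by
    apply IsCompact.inter_right (isCompact_univ.prod hWc)
    apply isClosed_iInter
    intro i
    apply isClosed_eq
    · exact (P.hqc i).comp ((continuous_apply i).comp continuous_fst)
    · exact (WeakDual.eval_continuous (P.f i)).comp continuous_snd
  have hLL : LL P = Prod.fst '' Γ := by
    ext c
    constructor
    · rintro ⟨z, hz, hzi⟩
      refine ⟨(c, StrongDual.toWeakDual z), ⟨⟨mem_univ _, ?_⟩, ?_⟩, rfl⟩
      · simp only [hW, mem_preimage, Metric.mem_closedBall, dist_zero_right]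
        exact hz
      · rw [mem_iInter]; intro i; exact hzi i
    · rintro ⟨⟨c', z⟩, ⟨⟨-, hz⟩, hzi⟩, rfl⟩
      rw [mem_iInter] at hzi
      simp only [hW, mem_preimage, Metric.mem_closedBall, dist_zero_right] at hz
      exact ⟨WeakDual.toStrongDual z, hz, fun i => hzi i⟩
  rw [hLL]
  exact (hΓc.image continuous_fst).isClosed

lemma xx_cont (hR : 0 ≤ R) (g : X) : ContinuousOn (fun c => xx P c g) (LL P) := by
  intro c0 hc0
  rw [Metric.continuousWithinAt_iff']
  intro ε hε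
  obtain ⟨i, hi⟩ := P.hf.exists_dist_lt g (show 0 < ε / (3 * (R + 1)) by positivity)
  have hcont : Continuous fun c : Om => P.q i (c i) := (P.hqc i).comp (continuous_apply i)
  have h1 : ∀ᶠ c in 𝓝[LL P] c0, dist (P.q i (c i)) (P.q i (c0 i)) < ε / 3 :=
    (hcont.continuousWithinAt).eventually (Metric.ball_mem_nhds _ (by positivity))
  filter_upwards [h1, self_mem_nhdsWithin] with c hc hcL
  rw [xx_apply P hcL, xx_apply P hc0, dist_eq_norm] at hc
  rw [dist_eq_norm] at hi ⊢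
  have e1 : ∀ c' ∈ LL P, ‖xx P c' (g - P.f i)‖ < ε / 3 := by
    intro c' hc'
    calc ‖xx P c' (g - P.f i)‖ ≤ ‖xx P c'‖ * ‖g - P.f i‖ := (xx P c').le_opNorm _
      _ ≤ R * ‖g - P.f i‖ := by gcongr; exact xx_norm P hc'
      _ ≤ (R + 1) * ‖g - P.f i‖ := by gcongr; linarith
      _ < (R + 1) * (ε / (3 * (R + 1))) := by gcongr
      _ = ε / 3 := by field_simp
  have e2 : xx P c g - xx P c0 g = xx P c (g - P.f i) + (xx P c (P.f i) - xx P c0 (P.f i))
      - xx P c0 (g - P.f i) := by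
    rw [map_sub, map_sub]; ring
  rw [e2]
  have h2 := e1 c hcL
  have h3 := e1 c0 hc0
  calc _ ≤ ‖xx P c (g - P.f i) + (xx P c (P.f i) - xx P c0 (P.f i))‖ + ‖xx P c0 (g - P.f i)‖ :=
        norm_sub_le _ _
    _ ≤ ‖xx P c (g - P.f i)‖ + ‖xx P c (P.f i) - xx P c0 (P.f i)‖ + ‖xx P c0 (g - P.f i)‖ := by
        gcongr; exact norm_add_le _ _
    _ < ε := by linarith

/-- the relative openness property of the parametrisation -/
lemma L3 {η : ℝ} (hη : 0 < η) (hR : R = 1 + η) {σ a : Om} (hσ : σ ∈ LL P) (ha : a ∈ LL P)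
    (hd : ‖xx P a - xx P σ‖ ≤ η / 2) (m : ℕ) :
    ∃ N ∈ 𝓝 σ, ∀ τ ∈ N ∩ LL P, ‖xx P τ‖ ≤ 1 →
      ∃ b ∈ LL P, (∀ i < m, b i = a i) ∧ ‖xx P b - xx P τ‖ ≤ η := by
  set F : Submodule 𝕜 X := Submodule.span 𝕜 (P.f '' (Finset.range m : Set ℕ)) with hF
  have hfin : FiniteDimensional 𝕜 F := by
    apply FiniteDimensional.span_of_finite
    exact (Finset.finite_toSet _).image _
  have hcont : ContinuousOn (fun τ => (xx P τ).comp F.subtypeL) (LL P) := by
    rw [continuousOn_clm_apply]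
    intro y
    exact xx_cont P (by linarith) (y : X)
  have h1 : ∀ᶠ τ in 𝓝[LL P] σ, dist ((xx P τ).comp F.subtypeL) ((xx P σ).comp F.subtypeL) < η / 2 :=
    (hcont σ hσ).eventually (Metric.ball_mem_nhds _ (by positivity))
  rw [eventually_nhdsWithin_iff] at h1
  refine ⟨_, h1, fun τ hτ hτ1 => ?_⟩
  have h2 := hτ.1 hτ.2
  obtain ⟨ψ, hψ1, hψ2⟩ := exists_extension_norm_eq F (((xx P σ) - (xx P τ)).comp F.subtypeL)
  have hψn : ‖ψ‖ ≤ η / 2 := by
    rw [hψ2]
    rw [dist_comm, dist_eq_norm] at h2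
    have e : ((xx P σ) - (xx P τ)).comp F.subtypeL
        = (xx P σ).comp F.subtypeL - (xx P τ).comp F.subtypeL := by ext; simp
    rw [e]; exact h2.le
  set w : X →L[𝕜] 𝕜 := xx P τ + (xx P a - xx P σ) + ψ with hw
  have hwd : ‖w - xx P τ‖ ≤ η := by
    have e : w - xx P τ = (xx P a - xx P σ) + ψ := by rw [hw]; abel
    rw [e]
    refine (norm_add_le _ _).trans ?_
    linarith
  have hwn : ‖w‖ ≤ R := by
    have e : w = xx P τ + (w - xx P τ) := by abel
    rw [e]
    refine (norm_add_le _ _).trans ?_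
    linarith
  have hwf : ∀ i < m, w (P.f i) = xx P a (P.f i) := by
    intro i hi
    have hmem : P.f i ∈ F := Submodule.subset_span ⟨i, by simpa using hi, rfl⟩
    have h3 := hψ1 ⟨P.f i, hmem⟩
    simp only [ContinuousLinearMap.comp_apply, Submodule.subtypeL_apply] at h3
    rw [hw]
    simp only [_root_.add_apply, _root_.sub_apply] at h3 ⊢
    rw [h3]; ring
  choose c hc using exists_coord P hwn
  classical
  set b : Om := fun i => if i < m then a i else c i with hb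
  have hbq : ∀ i, P.q i (b i) = w (P.f i) := by
    intro i
    by_cases hi : i < m
    · simp only [hb, if_pos hi]
      rw [xx_apply P ha, hwf i hi]
    · simp only [hb, if_neg hi]
      exact hc i
  obtain ⟨hbL, hbx⟩ := xx_eq P hwn hbq
  refine ⟨b, hbL, fun i hi => by simp only [hb, if_pos hi], ?_⟩
  rw [hbx]; exact hwd

end

section

variable {𝕜 : Type*} [RCLike 𝕜] {X : Type*} [NormedAddCommGroup X] [NormedSpace 𝕜 X]

variable {R : ℝ} (P : Par 𝕜 X R)

/-- admissible sets of parameters -/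
def Adm (η : ℝ) (C : Set Om) : Prop :=
  ∀ σ ∈ LL P, ‖xx P σ‖ ≤ 1 → ∃ c ∈ LL P ∩ C, ‖xx P c - xx P σ‖ ≤ η

/-- cylinder neighbourhoods -/
lemma exists_cyl {U : Set Om} (hU : IsOpen U) {a : Om} (ha : a ∈ U) :
    ∃ m : ℕ, ∀ b : Om, (∀ i < m, b i = a i) → b ∈ U := by
  rw [isOpen_pi_iff] at hU
  obtain ⟨I, u, hu, hsub⟩ := hU a ha
  refine ⟨I.sup id + 1, fun b hb => hsub ?_⟩
  intro i hi
  have h1 : i ≤ I.sup id := Finset.le_sup (f := id) hi
  rw [hb i (by omega)]
  exact (hu i hi).2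

lemma topo {η : ℝ} (hη : 0 < η) (hR : R = 1 + η) {F : Set Om} (hFc : IsClosed F)
    (hF : ∀ C : Set Om, IsClopen C → Adm P η C → (F ∩ C).Nonempty) :
    ∃ σ ∈ F, ∀ a ∈ LL P, ‖xx P a - xx P σ‖ ≤ η / 2 → a ∈ F := by
  -- the failure sets
  set Sg : Set Om → Set Om := fun C =>
    {σ | σ ∈ LL P ∧ ‖xx P σ‖ ≤ 1 ∧ ∀ c ∈ LL P ∩ C, ¬ ‖xx P c - xx P σ‖ ≤ η} with hSg
  have hSg_ne : ∀ C : Set Om, IsClopen C → C ∩ F = ∅ → (Sg C).Nonempty := by
    intro C hC hCF
    by_contra hne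
    rw [not_nonempty_iff_eq_empty] at hne
    have hadm : Adm P η C := by
      intro σ hσ hσ1
      by_contra hcon
      push Not at hcon
      have : σ ∈ Sg C := ⟨hσ, hσ1, fun c hc => not_le.2 (hcon c hc)⟩
      rw [hne] at this
      exact this
    obtain ⟨x, hx⟩ := hF C hC hadm
    have : x ∈ C ∩ F := ⟨hx.2, hx.1⟩
    rw [hCF] at this
    exact this
  have hSg_sub : ∀ C C', C ⊆ C' → Sg C' ⊆ Sg C := by
    rintro C C' h σ ⟨h1, h2, h3⟩
    exact ⟨h1, h2, fun c hc => h3 c ⟨hc.1, h hc.2⟩⟩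
  -- a common cluster point
  let I := {C : Set Om // IsClopen C ∧ C ∩ F = ∅}
  have hI : Nonempty I := ⟨⟨∅, isClopen_empty, by simp⟩⟩
  have hcl : ∀ C, closure (Sg C) ⊆ LL P := fun C =>
    closure_minimal (fun σ hσ => hσ.1) (LL_closed P)
  obtain ⟨σ, hσ⟩ : (⋂ C : I, closure (Sg C.1)).Nonempty := by
    apply IsCompact.nonempty_iInter_of_directed_nonempty_isCompact_isClosed
    · intro C C'
      refine ⟨⟨C.1 ∪ C'.1, C.2.1.union C'.2.1, ?_⟩, ?_, ?_⟩
      · rw [union_inter_distrib_right, C.2.2, C'.2.2, union_empty]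
      · exact closure_mono (hSg_sub _ _ subset_union_left)
      · exact closure_mono (hSg_sub _ _ subset_union_right)
    · intro C; exact (hSg_ne C.1 C.2.1 C.2.2).closure
    · intro C; exact isClosed_closure.isCompact
    · intro C; exact isClosed_closure
  rw [mem_iInter] at hσ
  have hσL : σ ∈ LL P := hcl _ (hσ ⟨∅, isClopen_empty, by simp⟩)
  have key : ∀ a ∈ LL P, ‖xx P a - xx P σ‖ ≤ η / 2 → a ∈ F := by
    intro a ha hd
    by_contra haF
    obtain ⟨C, hC, haC, hCF⟩ := compact_exists_isClopen_in_isOpen hFc.isOpen_compl haF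
    have hCF' : C ∩ F = ∅ := by
      ext x; simp only [mem_inter_iff, mem_empty_iff_false, iff_false, not_and]
      exact fun hx => hCF hx
    obtain ⟨m, hm⟩ := exists_cyl hC.isOpen haC
    obtain ⟨N, hN, hNb⟩ := L3 P hη hR hσL ha hd m
    have h1 := hσ ⟨C, hC, hCF'⟩
    obtain ⟨τ, hτN, hτ⟩ := mem_closure_iff_nhds.1 h1 N hN
    obtain ⟨b, hbL, hbi, hbd⟩ := hNb τ ⟨hτN, hτ.1⟩ hτ.2.1
    exact hτ.2.2 b ⟨hbL, hm b hbi⟩ hbd
  exact ⟨σ, key σ hσL (by simp; positivity), key⟩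

/-- one marker -/
lemma exists_marker (hinf : ¬ FiniteDimensional 𝕜 X) (S : Finset X) (g : X →L[𝕜] 𝕜)
    (hg : ‖g‖ = 1) {s : ℝ} (hs0 : 0 ≤ s) (hs : s ≤ 1 / 2) {κ : ℝ} (hκ : 0 < κ) :
    ∃ (x : X) (Y : X →L[𝕜] 𝕜), ‖x‖ = 1 ∧ ‖Y‖ = 1 ∧ 1 - κ < RCLike.re (Y x) ∧
      ∀ y ∈ S, Y y = (s : 𝕜) * g y := by
  -- a unit functional vanishing on `S`
  obtain ⟨e', he', heS⟩ : ∃ e' : X →L[𝕜] 𝕜, ‖e'‖ = 1 ∧ ∀ y ∈ S, e' y = 0 := by
    set M : Submodule 𝕜 X := Submodule.span 𝕜 (S : Set X) with hM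
    have hMfin : FiniteDimensional 𝕜 M := FiniteDimensional.span_of_finite 𝕜 S.finite_toSet
    have hMt : M ≠ ⊤ := by
      intro h
      apply hinf
      rw [h] at hMfin
      exact Module.finite_def.2 (Module.Finite.iff_fg.1 hMfin)
    have hMc : M.ClosedComplemented := Submodule.ClosedComplemented.of_finiteDimensional M
    obtain ⟨p, hp⟩ := hMc
    obtain ⟨x, hx⟩ : ∃ x, x ∉ M := by
      by_contra hcon
      push Not at hcon
      exact hMt (Submodule.eq_top_iff'.2 hcon)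
    set pr : X →L[𝕜] X := ContinuousLinearMap.id 𝕜 X - M.subtypeL.comp p with hpr
    have hpx : pr x ≠ 0 := by
      intro h
      apply hx
      have : x = (p x : X) := by
        simp only [hpr, _root_.sub_apply, ContinuousLinearMap.id_apply,
          ContinuousLinearMap.comp_apply, Submodule.subtypeL_apply] at h
        exact sub_eq_zero.1 h
      rw [this]; exact (p x).2
    obtain ⟨h, hh1, hh2⟩ := exists_dual_vector 𝕜 (pr x) (norm_ne_zero_iff.2 hpx)
    have hne : h.comp pr ≠ 0 := by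
      intro h0
      have h3 : (h.comp pr) x = 0 := by rw [h0]; simp
      rw [ContinuousLinearMap.comp_apply, hh2] at h3
      have h4 : (‖pr x‖ : 𝕜) = ((‖pr x‖ : ℝ) : 𝕜) := rfl
      rw [RCLike.ofReal_eq_zero] at h3
      exact hpx (norm_eq_zero.1 h3)
    have hn : 0 < ‖h.comp pr‖ := norm_pos_iff.2 hne
    refine ⟨(((‖h.comp pr‖⁻¹ : ℝ)) : 𝕜) • h.comp pr, ?_, ?_⟩
    · rw [norm_smul, RCLike.norm_ofReal, abs_of_pos (by positivity), inv_mul_cancel₀ hn.ne']
    · intro y hy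
      have hyM : y ∈ M := Submodule.subset_span hy
      have h5 : pr y = 0 := by
        simp only [hpr, _root_.sub_apply, ContinuousLinearMap.id_apply,
          ContinuousLinearMap.comp_apply, Submodule.subtypeL_apply]
        have := hp ⟨y, hyM⟩
        simp only at this
        rw [this]; simp
      rw [_root_.smul_apply, ContinuousLinearMap.comp_apply, h5]; simp
  -- intermediate value
  have hcont : Continuous fun r : ℝ => ‖(s : 𝕜) • g + (r : 𝕜) • e'‖ := by fun_prop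
  obtain ⟨r, -, hr⟩ : ∃ r ∈ Icc (0:ℝ) 2, ‖(s : 𝕜) • g + (r : 𝕜) • e'‖ = 1 := by
    apply intermediate_value_Icc (by norm_num) hcont.continuousOn
    constructor
    · have e0 : (s : 𝕜) • g + ((0:ℝ) : 𝕜) • e' = (s : 𝕜) • g := by ext z; simp
      change ‖(s : 𝕜) • g + ((0:ℝ) : 𝕜) • e'‖ ≤ 1
      rw [e0, norm_smul, hg, RCLike.norm_ofReal, abs_of_nonneg hs0]; linarith
    · have h1 := norm_sub_norm_le (((2:ℝ) : 𝕜) • e') (-((s : 𝕜) • g))
      rw [norm_neg, norm_smul, norm_smul, hg, he', RCLike.norm_ofReal, RCLike.norm_ofReal,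
        abs_of_nonneg hs0] at h1
      have e : ((2:ℝ) : 𝕜) • e' - -((s : 𝕜) • g) = (s : 𝕜) • g + ((2:ℝ) : 𝕜) • e' := by abel
      rw [e] at h1
      change 1 ≤ ‖(s : 𝕜) • g + ((2:ℝ) : 𝕜) • e'‖
      rw [abs_of_pos (by norm_num)] at h1
      linarith
  obtain ⟨x, hx1, hx2⟩ := exists_near_norming _ hr hκ
  refine ⟨x, (s : 𝕜) • g + (r : 𝕜) • e', hx1, hr, hx2, fun y hy => ?_⟩
  rw [_root_.add_apply, _root_.smul_apply, _root_.smul_apply, heS y hy]
  simp

/-- the sequence of markers -/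
lemma exists_markers (hinf : ¬ FiniteDimensional 𝕜 X) (f : ℕ → X) (g : X →L[𝕜] 𝕜)
    (hg : ‖g‖ = 1) (s κ : ℕ → ℝ) (hs0 : ∀ k, 0 ≤ s k) (hs : ∀ k, s k ≤ 1 / 2)
    (hκ : ∀ k, 0 < κ k) :
    ∃ (x : ℕ → X) (Y : ℕ → X →L[𝕜] 𝕜), (∀ k, ‖x k‖ = 1) ∧ (∀ k, ‖Y k‖ = 1) ∧
      (∀ k, 1 - κ k < RCLike.re (Y k (x k))) ∧ (∀ k, ∀ i < k, Y k (f i) = (s k : 𝕜) * g (f i)) ∧
      ∀ k, ∀ j < k, Y k (x j) = (s k : 𝕜) * g (x j) := by
  classical
  have hch : ∀ (k : ℕ) (S : Finset X), ∃ p : X × (X →L[𝕜] 𝕜), ‖p.1‖ = 1 ∧ ‖p.2‖ = 1 ∧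
      1 - κ k < RCLike.re (p.2 p.1) ∧ ∀ y ∈ S ∪ (Finset.range k).image f,
        p.2 y = (s k : 𝕜) * g y := by
    intro k S
    obtain ⟨x, Y, h1, h2, h3, h4⟩ :=
      exists_marker hinf (S ∪ (Finset.range k).image f) g hg (hs0 k) (hs k) (hκ k)
    exact ⟨(x, Y), h1, h2, h3, h4⟩
  choose ch h1 h2 h3 h4 using hch
  let S : ℕ → Finset X := fun k => Nat.rec ∅ (fun k S => insert (ch k S).1 S) k
  have hS : ∀ k, S (k + 1) = insert (ch k (S k)).1 (S k) := fun k => rfl
  have hmem : ∀ k j, j < k → (ch j (S j)).1 ∈ S k := by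
    intro k
    induction k with
    | zero => intro j hj; omega
    | succ k ih =>
      intro j hj
      rw [hS]
      rcases Nat.lt_succ_iff_lt_or_eq.1 hj with h | h
      · exact Finset.mem_insert_of_mem (ih j h)
      · rw [h]; exact Finset.mem_insert_self _ _
  refine ⟨fun k => (ch k (S k)).1, fun k => (ch k (S k)).2, fun k => h1 _ _, fun k => h2 _ _,
    fun k => h3 _ _, fun k i hi => ?_, fun k j hj => ?_⟩
  · apply h4
    apply Finset.mem_union_right
    exact Finset.mem_image_of_mem _ (Finset.mem_range.2 hi)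
  · apply h4
    exact Finset.mem_union_left _ (hmem k j hj)

end

section

variable {𝕜 : Type*} [RCLike 𝕜] {X : Type*} [NormedAddCommGroup X] [NormedSpace 𝕜 X]

/-- operators into `C[0,1]` from pointwise continuous bounded families -/
lemma exists_op (y : ℝ → X →L[𝕜] 𝕜) (hc : ∀ f : X, ContinuousOn (fun t => y t f) (Icc 0 1))
    {R : ℝ} (hR : 0 ≤ R) (hb : ∀ t ∈ Icc (0:ℝ) 1, ‖y t‖ ≤ R) :
    ∃ T : X →L[𝕜] C(unitInterval, 𝕜), (∀ (f : X) (t : unitInterval), T f t = y t f) ∧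
      ∀ f, ‖T f‖ ≤ R * ‖f‖ := by
  have hcont : ∀ f : X, Continuous fun t : unitInterval => y t f := fun f =>
    continuousOn_iff_continuous_domRestrict.1 (hc f)
  let L : X →ₗ[𝕜] C(unitInterval, 𝕜) :=
    { toFun := fun f => ⟨fun t => y t f, hcont f⟩
      map_add' := fun f g => by ext t; simp
      map_smul' := fun c f => by ext t; simp }
  have hL : ∀ f, ‖L f‖ ≤ R * ‖f‖ := by
    intro f
    rw [ContinuousMap.norm_le _ (by positivity)]
    intro t
    exact ((y t).le_opNorm f).trans (by gcongr; exact hb t t.2)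
  refine ⟨L.mkContinuous R hL, fun f t => rfl, fun f => hL f⟩

lemma exists_norm_attained (h : C(unitInterval, 𝕜)) : ∃ t, ‖h t‖ = ‖h‖ := by
  obtain ⟨t, -, ht⟩ := isCompact_univ.exists_isMaxOn (univ_nonempty (α := unitInterval))
    (h.continuous.norm.continuousOn)
  refine ⟨t, le_antisymm (h.norm_coe_le_norm t) ?_⟩
  rw [ContinuousMap.norm_le _ (norm_nonneg _)]
  intro s
  exact ht (mem_univ s)

/-- uncountably many points of a separable space are not uniformly separated -/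
lemma exists_close {D : Type*} [PseudoMetricSpace D] [TopologicalSpace.SeparableSpace D]
    (Φ : Icc (1/4 : ℝ) (1/2) → D) {η : ℝ} (hη : 0 < η) :
    ∃ s s', s ≠ s' ∧ dist (Φ s) (Φ s') ≤ η := by
  by_contra hcon
  push Not at hcon
  have hne : Nonempty D := ⟨Φ ⟨1/4, by norm_num, by norm_num⟩⟩
  have h1 : ∀ s, ∃ n, dist (Φ s) (TopologicalSpace.denseSeq D n) < η / 2 := fun s =>
    (TopologicalSpace.denseRange_denseSeq D).exists_dist_lt (Φ s) (by positivity)
  choose N hN using h1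
  have hinj : Function.Injective N := by
    intro s s' h
    by_contra hss
    have h2 := hcon s s' hss
    have h3 := hN s
    have h4 := hN s'
    rw [← h] at h4
    have := dist_triangle_right (Φ s) (Φ s') (TopologicalSpace.denseSeq D (N s))
    linarith
  have hcount : Countable (Icc (1/4 : ℝ) (1/2)) := hinj.countable
  have hc : (Icc (1/4 : ℝ) (1/2)).Countable := hcount
  have h5 := (Cardinal.mk_Icc_real (show (1/4:ℝ) < 1/2 by norm_num))
  have h6 := Cardinal.le_aleph0_iff_set_countable.2 hc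
  rw [h5] at h6
  exact absurd h6 (not_le.2 Cardinal.aleph0_lt_continuum)

/-- separated points of `[0,1]` are finitely many -/
lemma finite_sep (A : Set ℕ) (p : ℕ → ℝ) (hp : ∀ k ∈ A, p k ∈ Icc (0:ℝ) 1) {r : ℝ} (hr : 0 < r)
    (hsep : ∀ j ∈ A, ∀ k ∈ A, j ≠ k → r ≤ |p j - p k|) : A.Finite := by
  have hinj : InjOn (fun k => ⌊p k / r⌋₊) A := by
    intro j hj k hk h
    by_contra hjk
    have h1 := hsep j hj k hk hjk
    simp only at h
    have e1 := Nat.floor_le (show 0 ≤ p j / r from div_nonneg (hp j hj).1 hr.le)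
    have e2 := Nat.lt_floor_add_one (p j / r)
    have e3 := Nat.floor_le (show 0 ≤ p k / r from div_nonneg (hp k hk).1 hr.le)
    have e4 := Nat.lt_floor_add_one (p k / r)
    rw [h] at e1 e2
    have h2 : |p j / r - p k / r| < 1 := by
      rw [abs_lt]; constructor <;> linarith
    rw [← sub_div, abs_div, abs_of_pos hr, div_lt_one hr] at h2
    linarith
  apply Set.Finite.of_finite_image _ hinj
  apply (Set.finite_Iic ⌊1 / r⌋₊).subset
  rintro _ ⟨k, hk, rfl⟩
  exact Nat.floor_le_floor (div_le_div_of_nonneg_right (hp k hk).2 hr.le)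

end

section

variable {𝕜 : Type*} [RCLike 𝕜] {X : Type*} [NormedAddCommGroup X] [NormedSpace 𝕜 X]

variable {R : ℝ} (P : Par 𝕜 X R)

/-- the parameters allowed by the tasks `C k` with slices at `x k` -/
def KK (x : ℕ → X) (C : ℕ → Set Om) (δ2 : ℝ) : Set Om :=
  {l | l ∈ LL P ∧ ∀ k, 1 - δ2 < ‖xx P l (x k)‖ → l ∈ C k}

lemma KK_closed (hR : 0 ≤ R) (x : ℕ → X) (C : ℕ → Set Om) (hC : ∀ k, IsClopen (C k)) (δ2 : ℝ) :
    IsClosed (KK P x C δ2) := by
  have h : KK P x C δ2 = ⋂ k, ((LL P ∩ {l | ‖xx P l (x k)‖ ≤ 1 - δ2}) ∪ (LL P ∩ C k)) := by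
    ext l
    simp only [KK, mem_ofPred_eq, mem_iInter, mem_union, mem_inter_iff]
    constructor
    · rintro ⟨h1, h2⟩ k
      rcases le_or_gt (‖xx P l (x k)‖) (1 - δ2) with h | h
      · exact Or.inl ⟨h1, h⟩
      · exact Or.inr ⟨h1, h2 k h⟩
    · intro h
      refine ⟨?_, fun k hk => ?_⟩
      · rcases h 0 with h | h <;> exact h.1
      · rcases h k with h | h
        · exact absurd h.2 (not_le.2 hk)
        · exact h.2
  rw [h]
  apply isClosed_iInter
  intro k
  apply IsClosed.union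
  · have hcont : ContinuousOn (fun l => ‖xx P l (x k)‖) (LL P) := (xx_cont P hR (x k)).norm
    exact hcont.preimage_isClosed_of_isClosed (LL_closed P) isClosed_Iic
  · exact (LL_closed P).inter (hC k).isClosed

/-- hits of different slices are far apart -/
lemma hits_sep {κ0 δ2 η : ℝ} (hδ20 : 0 < δ2) (hη0 : 0 < η) (hη : η ≤ 1 / 16) (hR : R = 1 + η)
    (hδ2 : δ2 ≤ 1 / 8) (hsum : δ2 + η ≤ κ0)
    (hslice : ∀ (f g : X →L[𝕜] 𝕜) (x : X), ‖f‖ ≤ 1 → ‖g‖ ≤ 1 → ‖x‖ = 1 →
      1 - κ0 < ‖f x‖ → 1 - κ0 < RCLike.re (g x) → ∃ c : 𝕜, ‖c‖ = 1 ∧ ‖c • f - g‖ ≤ 1 / 8)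
    (x : ℕ → X) (Y : ℕ → X →L[𝕜] 𝕜) (hx : ∀ k, ‖x k‖ = 1) (hY : ∀ k, ‖Y k‖ = 1)
    (hYx : ∀ k, 1 - κ0 < RCLike.re (Y k (x k)))
    (hYj : ∀ k, ∀ j < k, ‖Y k (x j)‖ ≤ 1 / 2) {l l' : Om} (hl : l ∈ LL P) (hl' : l' ∈ LL P)
    {j k : ℕ} (hjk : j ≠ k) (h1 : 1 - δ2 < ‖xx P l (x k)‖) (h2 : 1 - δ2 < ‖xx P l' (x j)‖) :
    η < ‖xx P l - xx P l'‖ := by
  have main : ∀ (l l' : Om), l ∈ LL P → l' ∈ LL P → ∀ j k : ℕ, j < k →
      1 - δ2 < ‖xx P l (x k)‖ → 1 - δ2 < ‖xx P l' (x j)‖ → η < ‖xx P l - xx P l'‖ := by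
    intro l l' hl hl' j k hjk h1 h2
    have hRpos : 0 < R := by linarith
    obtain ⟨z, hz⟩ : ∃ z : X →L[𝕜] 𝕜, z = ((R⁻¹ : ℝ) : 𝕜) • xx P l := ⟨_, rfl⟩
    have hzn : ‖z‖ ≤ 1 := by
      rw [hz, norm_smul, RCLike.norm_ofReal, abs_of_pos (by positivity), inv_mul_le_iff₀ hRpos,
        mul_one]
      exact xx_norm P hl
    have hzx : 1 - κ0 < ‖z (x k)‖ := by
      rw [hz, _root_.smul_apply, norm_smul, RCLike.norm_ofReal, abs_of_pos (by positivity),
        inv_mul_eq_div, lt_div_iff₀ hRpos]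
      rcases le_total (1 - κ0) 0 with h | h
      · have h3 : (1 - κ0) * R ≤ 0 := mul_nonpos_of_nonpos_of_nonneg h hRpos.le
        have : 0 < 1 - δ2 := by linarith
        linarith
      · have h3 : 0 < κ0 := by linarith
        have h4 : (1 - κ0) * R = 1 - κ0 + η - κ0 * η := by rw [hR]; ring
        have h5 : 0 < κ0 * η := by positivity
        linarith
    obtain ⟨c, hc, hcz⟩ := hslice z (Y k) (x k) hzn (hY k).le (hx k) hzx (hYx k)
    have h3 : ‖z (x j)‖ ≤ 5 / 8 := by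
      have e1 : ‖z (x j)‖ = ‖(c • z) (x j)‖ := by
        rw [_root_.smul_apply, norm_smul, hc, one_mul]
      have e2 : (c • z) (x j) = (c • z - Y k) (x j) + Y k (x j) := by
        rw [_root_.sub_apply]; ring
      rw [e1, e2]
      have h4 : ‖(c • z - Y k) (x j)‖ ≤ 1 / 8 := by
        calc ‖(c • z - Y k) (x j)‖ ≤ ‖c • z - Y k‖ * ‖x j‖ := ContinuousLinearMap.le_opNorm _ _
          _ ≤ 1 / 8 := by rw [hx j, mul_one]; exact hcz
      have h5 := hYj k j hjk
      have := norm_add_le ((c • z - Y k) (x j)) (Y k (x j))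
      linarith
    have h6 : ‖xx P l (x j)‖ ≤ 5 / 8 * R := by
      rw [hz, _root_.smul_apply, norm_smul, RCLike.norm_ofReal, abs_of_pos (by positivity),
        inv_mul_le_iff₀ hRpos] at h3
      linarith
    have h7 : ‖xx P l' (x j)‖ - ‖xx P l (x j)‖ ≤ ‖xx P l - xx P l'‖ := by
      calc ‖xx P l' (x j)‖ - ‖xx P l (x j)‖ ≤ ‖xx P l' (x j) - xx P l (x j)‖ :=
            norm_sub_norm_le _ _
        _ = ‖(xx P l - xx P l') (x j)‖ := by rw [_root_.sub_apply, norm_sub_rev]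
        _ ≤ ‖xx P l - xx P l'‖ * ‖x j‖ := ContinuousLinearMap.le_opNorm _ _
        _ = _ := by rw [hx j, mul_one]
    nlinarith
  rcases lt_or_gt_of_ne hjk with h | h
  · exact main l l' hl hl' j k h h1 h2
  · rw [norm_sub_rev]
    exact main l' l hl' hl k j h h2 h1

/-- the allowed parameters are almost norming -/
lemma KK_norming {δ2 η : ℝ} (hR : R = 1 + η) (hη0 : 0 < η) (x : ℕ → X) (C : ℕ → Set Om)
    (hadm : ∀ k, Adm P η (C k))
    (hsep : ∀ l ∈ LL P, ∀ l' ∈ LL P, ∀ j k : ℕ, j ≠ k → 1 - δ2 < ‖xx P l (x k)‖ →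
      1 - δ2 < ‖xx P l' (x j)‖ → η < ‖xx P l - xx P l'‖) (f : X) (hf : ‖f‖ = 1) :
    ∃ l ∈ KK P x C δ2, 1 - η ≤ ‖xx P l f‖ := by
  obtain ⟨Y, hY1, hY2⟩ := exists_dual_vector'' 𝕜 f
  obtain ⟨σ, hσ, hσY⟩ := xx_surj P (z := Y) (by linarith)
  by_cases h : ∀ k, ¬ 1 - δ2 < ‖xx P σ (x k)‖
  · refine ⟨σ, ⟨hσ, fun k hk => absurd hk (h k)⟩, ?_⟩
    rw [hσY, hY2, hf]
    simp; linarith
  · push Not at h
    obtain ⟨k, hk⟩ := h
    obtain ⟨c, ⟨hcL, hcC⟩, hcd⟩ := hadm k σ hσ (by rw [hσY]; exact hY1)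
    refine ⟨c, ⟨hcL, fun j hj => ?_⟩, ?_⟩
    · by_cases hjk : j = k
      · rw [hjk]; exact hcC
      · exfalso
        have h1 := hsep c hcL σ hσ k j (Ne.symm hjk) hj hk
        linarith
    · have h1 : ‖xx P σ f‖ = 1 := by rw [hσY, hY2, hf]; simp
      have h2 : ‖xx P σ f‖ - ‖xx P c f‖ ≤ η := by
        calc ‖xx P σ f‖ - ‖xx P c f‖ ≤ ‖xx P σ f - xx P c f‖ := norm_sub_norm_le _ _
          _ = ‖(xx P c - xx P σ) f‖ := by rw [_root_.sub_apply, norm_sub_rev]
          _ ≤ ‖xx P c - xx P σ‖ * ‖f‖ := ContinuousLinearMap.le_opNorm _ _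
          _ ≤ η := by rw [hf, mul_one]; exact hcd
      linarith

/-- the curve of functionals -/
noncomputable def yy (Z : Set Om) (t : ℝ) : X →L[𝕜] 𝕜 := interp (base Z) (lift (xx P) 0) t

lemma yy_apply (Z : Set Om) (t : ℝ) (f : X) :
    yy P Z t f = interp (base Z) (fun t => lift (xx P) 0 t f) t := by
  unfold yy interp
  simp

lemma yy_cont (hR : 0 ≤ R) {Z : Set Om} (hZ : IsClosed Z) (hZL : Z ⊆ LL P) (f : X) :
    ContinuousOn (fun t => yy P Z t f) (Icc 0 1) := by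
  simp only [yy_apply]
  apply interp_continuousOn (base_compact hZ) (zero_mem_base Z) (one_mem_base Z)
  have h1 : ContinuousOn (fun l => xx P l f) Z := (xx_cont P hR f).mono hZL
  have h2 := lift_continuousOn hZ h1 (0:𝕜)
  apply h2.congr
  intro t _
  by_cases h : t ∈ Icc (1 / 3 : ℝ) (2 / 3)
  · simp only [lift, if_pos h]
  · simp only [lift, if_neg h]; simp

lemma lift_norm_le (hR : 0 ≤ R) {Z : Set Om} (hZL : Z ⊆ LL P) {κ : ℝ} (hκ : κ ∈ base Z) :
    ‖lift (xx P) 0 κ‖ ≤ R := by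
  rcases hκ with hκ | ⟨l, hl, rfl⟩
  · rcases hκ with rfl | hκ
    · rw [lift_zero]; simpa using hR
    · rw [mem_singleton_iff] at hκ
      subst hκ; rw [lift_one]; simpa using hR
  · rw [lift_pos]; exact xx_norm P (hZL hl)

lemma yy_norm (hR : 0 ≤ R) {Z : Set Om} (hZ : IsClosed Z) (hZL : Z ⊆ LL P) {t : ℝ}
    (ht : t ∈ Icc (0:ℝ) 1) : ‖yy P Z t‖ ≤ R := by
  have hK := base_compact hZ
  have h0 := zero_mem_base Z
  have h1 := one_mem_base Z
  have hw := wt_mem hK h0 h1 ht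
  unfold yy interp
  have e1 := lift_norm_le P hR hZL (lft_mem hK h0 h1 ht.1).1
  have e2 := lift_norm_le P hR hZL (rgt_mem hK h0 h1 ht.2).1
  calc _ ≤ ‖(1 - wt (base Z) t) • lift (xx P) 0 (lft (base Z) t)‖
        + ‖wt (base Z) t • lift (xx P) 0 (rgt (base Z) t)‖ := norm_add_le _ _
    _ = (1 - wt (base Z) t) * ‖lift (xx P) 0 (lft (base Z) t)‖
        + wt (base Z) t * ‖lift (xx P) 0 (rgt (base Z) t)‖ := by
        rw [norm_smul, norm_smul, Real.norm_of_nonneg hw.1,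
          Real.norm_of_nonneg (by linarith [hw.2])]
    _ ≤ (1 - wt (base Z) t) * R + wt (base Z) t * R := by
        have := hw.1; have h5 := hw.2
        gcongr
    _ = R := by ring

/-- if the interpolated functional is in a slice, so is one of the two neighbours -/
lemma neighbour {Z : Set Om} (hZ : IsClosed Z) {t : ℝ} (ht : t ∈ Icc (0:ℝ) 1) {f : X} {ρ : ℝ}
    (hρ : 0 ≤ ρ) (h : ρ < ‖yy P Z t f‖) :
    ∃ l ∈ Z, ρ < ‖xx P l f‖ ∧ (pos l = lft (base Z) t ∨ pos l = rgt (base Z) t) := by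
  have hK := base_compact hZ
  have h0 := zero_mem_base Z
  have h1 := one_mem_base Z
  have hw := wt_mem hK h0 h1 ht
  have hmem : ∀ κ ∈ base Z, ρ < ‖lift (xx P) 0 κ f‖ → ∃ l ∈ Z, ρ < ‖xx P l f‖ ∧ pos l = κ := by
    rintro κ (hκ | ⟨l, hl, rfl⟩) hlt
    · exfalso
      have : lift (xx P) 0 κ = 0 := by
        rcases hκ with rfl | hκ
        · exact lift_zero _ _
        · rw [mem_singleton_iff] at hκ
          subst hκ; exact lift_one _ _
      rw [this] at hlt
      simp at hlt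
      linarith
    · rw [lift_pos] at hlt
      exact ⟨l, hl, hlt, rfl⟩
  have hor : ρ < ‖lift (xx P) 0 (lft (base Z) t) f‖ ∨ ρ < ‖lift (xx P) 0 (rgt (base Z) t) f‖ := by
    by_contra hcon
    push Not at hcon
    have h2 : ‖yy P Z t f‖ ≤ ρ := by
      rw [yy_apply]
      unfold interp
      calc _ ≤ ‖(1 - wt (base Z) t) • lift (xx P) 0 (lft (base Z) t) f‖
            + ‖wt (base Z) t • lift (xx P) 0 (rgt (base Z) t) f‖ := norm_add_le _ _
        _ = (1 - wt (base Z) t) * ‖lift (xx P) 0 (lft (base Z) t) f‖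
            + wt (base Z) t * ‖lift (xx P) 0 (rgt (base Z) t) f‖ := by
            rw [norm_smul, norm_smul, Real.norm_of_nonneg hw.1,
              Real.norm_of_nonneg (by linarith [hw.2])]
        _ ≤ (1 - wt (base Z) t) * ρ + wt (base Z) t * ρ := by
            have := hw.1; have h5 := hw.2
            have h6 := hcon.1
            have h7 := hcon.2
            gcongr
        _ = ρ := by ring
    linarith
  rcases hor with h2 | h2
  · obtain ⟨l, hl, hl1, hl2⟩ := hmem _ (lft_mem hK h0 h1 ht.1).1 h2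
    exact ⟨l, hl, hl1, Or.inl hl2⟩
  · obtain ⟨l, hl, hl1, hl2⟩ := hmem _ (rgt_mem hK h0 h1 ht.2).1 h2
    exact ⟨l, hl, hl1, Or.inr hl2⟩

/-- the neighbours converge to the points -/
lemma gaps_shrink {Z : Set Om} (hZ : IsClosed Z) (t : ℕ → ℝ) (ht : ∀ k, t k ∈ Icc (0:ℝ) 1)
    (l : ℕ → Om) (hlinj : Function.Injective l)
    (hl : ∀ k, pos (l k) = lft (base Z) (t k) ∨ pos (l k) = rgt (base Z) (t k)) :
    Tendsto (fun k => t k - pos (l k)) atTop (𝓝 0) := by
  have hK := base_compact hZ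
  have h0 := zero_mem_base Z
  have h1 := one_mem_base Z
  have hinj : Function.Injective fun k => pos (l k) := pos_inj.comp hlinj
  have hpm : ∀ k, pos (l k) ∈ Icc (0:ℝ) 1 := fun k => by
    have := pos_mem (l k)
    exact ⟨by linarith [this.1], by linarith [this.2]⟩
  rw [Metric.tendsto_atTop']
  intro r hr
  -- the bad sets
  set A : Set ℕ := {k | r ≤ |t k - pos (l k)| ∧ pos (l k) = lft (base Z) (t k)} with hA
  set B : Set ℕ := {k | r ≤ |t k - pos (l k)| ∧ pos (l k) = rgt (base Z) (t k)} with hB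
  have hAf : A.Finite := by
    apply finite_sep A (fun k => pos (l k)) (fun k _ => hpm k) hr
    have aux : ∀ j ∈ A, ∀ k ∈ A, pos (l j) < pos (l k) → r ≤ pos (l k) - pos (l j) := by
      rintro j ⟨hj1, hj2⟩ k ⟨hk1, hk2⟩ hlt
      rw [hj2, hk2] at hlt
      have h3 := gap_left hK h0 h1 (ht k) hlt
      have h4 := (lft_mem hK h0 h1 (ht j).1).2
      simp only [mem_Iic] at h4
      rw [hj2, abs_of_nonneg (by linarith)] at hj1
      rw [hj2, hk2]; linarith
    intro j hj k hk hjk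
    have hne : pos (l j) ≠ pos (l k) := fun h => hjk (hinj h)
    rcases lt_or_gt_of_ne hne with h | h
    · rw [abs_sub_comm]; exact (aux j hj k hk h).trans (le_abs_self _)
    · exact (aux k hk j hj h).trans (le_abs_self _)
  have hBf : B.Finite := by
    apply finite_sep B (fun k => pos (l k)) (fun k _ => hpm k) hr
    have aux : ∀ j ∈ B, ∀ k ∈ B, pos (l k) < pos (l j) → r ≤ pos (l j) - pos (l k) := by
      rintro j ⟨hj1, hj2⟩ k ⟨hk1, hk2⟩ hlt
      rw [hj2, hk2] at hlt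
      have h3 := gap_right hK h0 h1 (ht k) hlt
      have h4 := (rgt_mem hK h0 h1 (ht j).2).2
      simp only [mem_Ici] at h4
      rw [hj2, abs_of_nonpos (by linarith)] at hj1
      rw [hj2, hk2]; linarith
    intro j hj k hk hjk
    have hne : pos (l j) ≠ pos (l k) := fun h => hjk (hinj h)
    rcases lt_or_gt_of_ne hne with h | h
    · rw [abs_sub_comm]; exact (aux k hk j hj h).trans (le_abs_self _)
    · exact (aux j hj k hk h).trans (le_abs_self _)
  obtain ⟨N, hN⟩ := (hAf.union hBf).bddAbove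
  refine ⟨N, fun k hk => ?_⟩
  rw [Real.dist_eq, sub_zero]
  by_contra hcon
  push Not at hcon
  have : k ∈ A ∪ B := by
    rcases hl k with h | h
    · exact Or.inl ⟨hcon, h⟩
    · exact Or.inr ⟨hcon, h⟩
  have := hN this
  omega

end

section

variable {𝕜 : Type*} [RCLike 𝕜] {X : Type*} [NormedAddCommGroup X] [NormedSpace 𝕜 X]

noncomputable def posI (l : Om) : unitInterval :=
  ⟨pos l, by have := pos_mem l; exact ⟨by linarith [this.1], by linarith [this.2]⟩⟩

lemma posI_cont : Continuous posI := pos_cont.subtype_mk _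

def FF (K : Set Om) (V : X →L[𝕜] C(unitInterval, 𝕜)) (g : X →L[𝕜] 𝕜) (s : ℝ) : Set Om :=
  {l | l ∈ K ∧ ∀ f, ‖V f (posI l)‖ = s * ‖g f‖}

lemma FF_closed {K : Set Om} (hK : IsClosed K) (V : X →L[𝕜] C(unitInterval, 𝕜))
    (g : X →L[𝕜] 𝕜) (s : ℝ) : IsClosed (FF K V g s) := by
  have : FF K V g s = K ∩ ⋂ f : X, {l | ‖V f (posI l)‖ = s * ‖g f‖} := by
    ext l; simp [FF]
  rw [this]
  apply hK.inter
  apply isClosed_iInter
  intro f
  exact isClosed_eq (((V f).continuous.comp posI_cont).norm) continuous_const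

lemma limit_point (f : ℕ → X) (hf : DenseRange f) {K C : Set Om} (hK : IsClosed K)
    (hC : IsClosed C) (V : X →L[𝕜] C(unitInterval, 𝕜)) (g : X →L[𝕜] 𝕜) {s : ℝ}
    (k : ℕ → ℕ) (hk : ∀ j, j ≤ k j) (l : ℕ → Om) (hl : ∀ j, l (k j) ∈ K ∩ C)
    (t : ℕ → unitInterval) (ht : Tendsto (fun n => (t n : ℝ) - pos (l n)) atTop (𝓝 0))
    (Y : ℕ → X →L[𝕜] 𝕜) (sk : ℕ → ℝ) (hsk0 : ∀ n, 0 ≤ sk n)
    (hY : ∀ n, ∀ i < n, Y n (f i) = (sk n : 𝕜) * g (f i))
    (hs : Tendsto (fun j => sk (k j)) atTop (𝓝 s))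
    (hclose : ∀ n z, |‖V z (t n)‖ - ‖Y n z‖| ≤ ‖z‖ / ((n : ℝ) + 1)) :
    (FF K V g s ∩ C).Nonempty := by
  obtain ⟨ls, hls, φ, hφ, hlim⟩ := (hK.inter hC).isCompact.tendsto_subseq hl
  refine ⟨ls, ⟨hls.1, ?_⟩, hls.2⟩
  have hkt : Tendsto k atTop atTop := tendsto_atTop_mono hk tendsto_id
  have hkφ : Tendsto (fun j => k (φ j)) atTop atTop := hkt.comp hφ.tendsto_atTop
  have ht1 : Tendsto (fun j => t (k (φ j))) atTop (𝓝 (posI ls)) := by
    rw [tendsto_subtype_rng]
    have h1 : Tendsto (fun j => ((t (k (φ j)) : ℝ) - pos (l (k (φ j)))) + pos (l (k (φ j)))) atTop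
        (𝓝 (0 + pos ls)) :=
      (ht.comp hkφ).add ((pos_cont.tendsto ls).comp hlim)
    simpa [posI] using h1
  -- the identity on the dense sequence
  have hdense : ∀ i, ‖V (f i) (posI ls)‖ = s * ‖g (f i)‖ := by
    intro i
    have a1 : Tendsto (fun j => ‖V (f i) (t (k (φ j)))‖) atTop (𝓝 ‖V (f i) (posI ls)‖) :=
      (((V (f i)).continuous.tendsto _).comp ht1).norm
    have a2 : Tendsto (fun j => ‖V (f i) (t (k (φ j)))‖ - ‖Y (k (φ j)) (f i)‖) atTop (𝓝 0) := by
      have b1 : Tendsto (fun n : ℕ => ‖f i‖ / ((n : ℝ) + 1)) atTop (𝓝 0) := by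
        have := (tendsto_one_div_add_atTop_nhds_zero_nat (𝕜 := ℝ)).const_mul ‖f i‖
        rw [mul_zero] at this
        refine this.congr fun n => ?_
        ring
      exact squeeze_zero_norm (fun j => hclose _ _) (b1.comp hkφ)
    have a3 : Tendsto (fun j => ‖Y (k (φ j)) (f i)‖) atTop (𝓝 (s * ‖g (f i)‖)) := by
      have b2 : ∀ᶠ j in atTop, sk (k (φ j)) * ‖g (f i)‖ = ‖Y (k (φ j)) (f i)‖ := by
        filter_upwards [hkφ.eventually (eventually_gt_atTop i)] with j hj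
        rw [hY _ i hj, norm_mul, RCLike.norm_ofReal, abs_of_nonneg (hsk0 _)]
      refine Tendsto.congr' b2 ?_
      exact (hs.comp hφ.tendsto_atTop).mul_const _
    have a4 : Tendsto (fun j => ‖V (f i) (t (k (φ j)))‖) atTop (𝓝 (0 + s * ‖g (f i)‖)) := by
      have := a2.add a3
      simpa using this
    rw [zero_add] at a4
    exact tendsto_nhds_unique a1 a4
  intro z
  have c1 : Continuous fun z => ‖V z (posI ls)‖ := by
    have : Continuous fun z => V z (posI ls) :=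
      (continuous_eval_const (posI ls)).comp V.continuous
    exact this.norm
  have c2 : Continuous fun z => s * ‖g z‖ := continuous_const.mul g.continuous.norm
  have := hf.equalizer c1 c2 (by ext i; exact hdense i)
  exact congrFun this z

/-- the negative result -/
theorem negative (hus : UniformlySmooth 𝕜 X) (hinf : ¬ FiniteDimensional 𝕜 X)
    [TopologicalSpace.SeparableSpace X] :
    ∃ δ0 : ℝ, 0 < δ0 ∧ ∀ ε : ℝ, 0 < ε → ∃ T : X →L[𝕜] C(unitInterval, 𝕜), EpsIsometric ε T ∧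
      ∀ V : X →L[𝕜] C(unitInterval, 𝕜), EpsIsometric 0 V → ¬ ‖T - V‖ ≤ δ0 := by
  obtain ⟨κ0, hκ0, hslice0⟩ := slice' hus (show (0:ℝ) < 1 / 8 by norm_num)
  set δ2 : ℝ := min (κ0 / 2) (1 / 8) with hδ2def
  have hδ2 : 0 < δ2 := by positivity
  have hδ2a : δ2 ≤ 1 / 8 := min_le_right _ _
  have hδ2b : δ2 ≤ κ0 / 2 := min_le_left _ _
  refine ⟨δ2 / 2, by positivity, fun ε hε => ?_⟩
  set η : ℝ := min (min ε (κ0 / 2)) (1 / 16) with hηdef
  have hη : 0 < η := by positivity
  have hηa : η ≤ 1 / 16 := min_le_right _ _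
  have hηb : η ≤ κ0 / 2 := (min_le_left _ _).trans (min_le_right _ _)
  have hηc : η ≤ ε := (min_le_left _ _).trans (min_le_left _ _)
  obtain ⟨R, hR⟩ : ∃ R : ℝ, R = 1 + η := ⟨_, rfl⟩
  have hR0 : 0 ≤ R := by linarith
  -- a unit functional
  obtain ⟨x0, hx0⟩ : ∃ x : X, x ≠ 0 := by
    by_contra hcon
    push Not at hcon
    apply hinf
    have : Subsingleton X := ⟨fun a b => by rw [hcon a, hcon b]⟩
    infer_instance
  obtain ⟨g, hg1, hg2⟩ := exists_dual_vector 𝕜 x0 (norm_ne_zero_iff.2 hx0)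
  have hgx0 : 0 < ‖g x0‖ := by
    rw [hg2]
    have := norm_pos_iff.2 hx0
    simpa using this
  obtain ⟨P⟩ := exists_par (𝕜 := 𝕜) (X := X) hR0
  -- the tasks
  let A := {C : Set Om // IsClopen C ∧ Adm P η C} × {q : ℚ // 1 / 4 ≤ q ∧ q ≤ 1 / 2}
  have hAc : Countable A := by
    have h1 : Countable (TopologicalSpace.Clopens Om) := by
      rw [TopologicalSpace.Clopens.countable_iff_secondCountable]; infer_instance
    have h2 : Countable {C : Set Om // IsClopen C ∧ Adm P η C} := by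
      let i : {C : Set Om // IsClopen C ∧ Adm P η C} → TopologicalSpace.Clopens Om :=
        fun C => ⟨C.1, C.2.1⟩
      have hi : Function.Injective i := by
        intro C C' h
        apply Subtype.ext
        exact congrArg (fun D : TopologicalSpace.Clopens Om => (D : Set Om)) h
      exact hi.countable
    infer_instance
  have hAn : Nonempty A := by
    refine ⟨⟨⟨univ, isClopen_univ, fun σ hσ _ => ⟨σ, ⟨hσ, mem_univ _⟩, by simp; positivity⟩⟩,
      ⟨1 / 4, by norm_num, by norm_num⟩⟩⟩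
  obtain ⟨e, he⟩ := exists_surjective_nat A
  set task : ℕ → A := fun k => e (Nat.unpair k).1 with htask
  set C : ℕ → Set Om := fun k => (task k).1.1 with hCdef
  set sk : ℕ → ℝ := fun k => (((task k).2.1 : ℚ) : ℝ) with hskdef
  have hCc : ∀ k, IsClopen (C k) := fun k => (task k).1.2.1
  have hCa : ∀ k, Adm P η (C k) := fun k => (task k).1.2.2
  have hsk0 : ∀ k, 0 ≤ sk k := fun k => by
    have h := (task k).2.2.1
    have h' : (0:ℚ) ≤ (task k).2.1 := le_trans (by norm_num) h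
    simp only [hskdef]
    exact_mod_cast h'
  have hsk1 : ∀ k, sk k ≤ 1 / 2 := fun k => by
    have h := (task k).2.2.2
    simp only [hskdef]
    have h2 : (((task k).2.1 : ℚ) : ℝ) ≤ ((1 / 2 : ℚ) : ℝ) := by exact_mod_cast h
    simpa using h2
  -- the tolerances
  have hκk : ∀ k : ℕ, ∃ κ : ℝ, 0 < κ ∧ ∀ (f g : X →L[𝕜] 𝕜) (x : X), ‖f‖ ≤ 1 → ‖g‖ ≤ 1 → ‖x‖ = 1 →
      1 - κ < ‖f x‖ → 1 - κ < RCLike.re (g x) → ∃ c : 𝕜, ‖c‖ = 1 ∧ ‖c • f - g‖ ≤ 1 / ((k:ℝ) + 1) :=
    fun k => slice' hus (by positivity)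
  choose κ' hκ' hslicek using hκk
  obtain ⟨x, Y, hx, hY, hYx, hYf, hYj⟩ := exists_markers hinf P.f g hg1 sk
    (fun k => min (κ' k) κ0) hsk0 hsk1 (fun k => lt_min (hκ' k) hκ0)
  have hYx0 : ∀ k, 1 - κ0 < RCLike.re (Y k (x k)) := fun k => by
    have := hYx k
    have h2 : min (κ' k) κ0 ≤ κ0 := min_le_right _ _
    linarith
  have hYxk : ∀ k, 1 - κ' k < RCLike.re (Y k (x k)) := fun k => by
    have := hYx k
    have h2 : min (κ' k) κ0 ≤ κ' k := min_le_left _ _
    linarith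
  have hYj' : ∀ k, ∀ j < k, ‖Y k (x j)‖ ≤ 1 / 2 := by
    intro k j hj
    rw [hYj k j hj, norm_mul, RCLike.norm_ofReal, abs_of_nonneg (hsk0 k)]
    have h1 : ‖g (x j)‖ ≤ 1 := by
      have := g.le_opNorm (x j)
      rw [hg1, hx j] at this; linarith
    calc sk k * ‖g (x j)‖ ≤ 1 / 2 * 1 := by
          have := hsk1 k
          have := hsk0 k
          gcongr
      _ = 1 / 2 := by norm_num
  have hsep : ∀ l ∈ LL P, ∀ l' ∈ LL P, ∀ j k : ℕ, j ≠ k → 1 - δ2 < ‖xx P l (x k)‖ →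
      1 - δ2 < ‖xx P l' (x j)‖ → η < ‖xx P l - xx P l'‖ := fun l hl l' hl' j k hjk h1 h2 =>
    hits_sep P hδ2 hη hηa hR hδ2a (by linarith) hslice0 x Y hx hY hYx0 hYj' hl hl' hjk h1 h2
  set K := KK P x C δ2 with hKdef
  have hKc : IsClosed K := KK_closed P hR0 x C hCc δ2
  have hKL : K ⊆ LL P := fun l hl => hl.1
  -- the operator
  obtain ⟨T, hT1, hT2⟩ := exists_op (yy P K) (yy_cont P hR0 hKc hKL) hR0
    (fun t ht => yy_norm P hR0 hKc hKL ht)
  refine ⟨T, ?_, ?_⟩
  · -- `ε`-isometric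
    intro f
    constructor
    · by_cases hf : f = 0
      · rw [hf]; simp
      have hf' : 0 < ‖f‖ := norm_pos_iff.2 hf
      set f1 : X := ((‖f‖⁻¹ : ℝ) : 𝕜) • f with hf1
      have hf1n : ‖f1‖ = 1 := by
        rw [hf1, norm_smul, RCLike.norm_ofReal, abs_of_pos (by positivity),
          inv_mul_cancel₀ hf'.ne']
      obtain ⟨l, hl, hln⟩ := KK_norming P hR hη x C hCa hsep f1 hf1n
      have h1 : T f1 (posI l) = xx P l f1 := by
        rw [hT1]
        have h2 : yy P K (posI l : ℝ) = xx P l := by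
          unfold yy
          have h3 : ((posI l : unitInterval) : ℝ) = pos l := rfl
          rw [h3, interp_self (base_compact hKc) (zero_mem_base K) (one_mem_base K) _
            (Or.inr ⟨l, hl, rfl⟩) (by linarith [(pos_mem l).1]), lift_pos]
        rw [h2]
      have h2 : 1 - η ≤ ‖T f1‖ := by
        have := (T f1).norm_coe_le_norm (posI l)
        rw [h1] at this
        linarith
      have h3 : ‖T f1‖ = ‖f‖⁻¹ * ‖T f‖ := by
        rw [hf1, map_smul, norm_smul, RCLike.norm_ofReal, abs_of_pos (by positivity)]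
      rw [h3, inv_mul_eq_div, le_div_iff₀ hf'] at h2
      nlinarith
    · refine (hT2 f).trans ?_
      rw [hR]
      gcongr
  · -- no isometric operator is close
    intro V hV hVT
    have hViso : ∀ z, ‖V z‖ = ‖z‖ := fun z => by
      have := hV z
      simp only [sub_zero, one_mul, add_zero] at this
      exact le_antisymm this.2 this.1
    -- the points where the test vectors are normed
    have hpt : ∀ k, ∃ t : unitInterval, ‖V (x k) t‖ = 1 := by
      intro k
      obtain ⟨t, ht⟩ := exists_norm_attained (V (x k))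
      exact ⟨t, by rw [ht, hViso, hx k]⟩
    choose t ht using hpt
    have hTt : ∀ k, 1 - δ2 < ‖yy P K (t k) (x k)‖ := by
      intro k
      rw [← hT1]
      have h1 : ‖V (x k) (t k)‖ - ‖T (x k) (t k)‖ ≤ δ2 / 2 := by
        calc ‖V (x k) (t k)‖ - ‖T (x k) (t k)‖ ≤ ‖V (x k) (t k) - T (x k) (t k)‖ :=
              norm_sub_norm_le _ _
          _ = ‖((T - V) (x k)) (t k)‖ := by
              rw [_root_.sub_apply, ContinuousMap.sub_apply, norm_sub_rev]
          _ ≤ ‖(T - V) (x k)‖ := ContinuousMap.norm_coe_le_norm _ _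
          _ ≤ ‖T - V‖ * ‖x k‖ := ContinuousLinearMap.le_opNorm _ _
          _ ≤ δ2 / 2 := by rw [hx k, mul_one]; exact hVT
      rw [ht k] at h1
      linarith
    have hnb : ∀ k, ∃ l ∈ K, 1 - δ2 < ‖xx P l (x k)‖ ∧
        (pos l = lft (base K) (t k) ∨ pos l = rgt (base K) (t k)) := fun k =>
      neighbour P hKc (t k).2 (by linarith) (hTt k)
    choose l hlK hlhit hlpos using hnb
    have hlC : ∀ k, l k ∈ C k := fun k => (hlK k).2 k (hlhit k)
    have hlinj : Function.Injective l := by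
      intro j k hjk
      by_contra hne
      have h1 := hsep (l k) (hKL (hlK k)) (l j) (hKL (hlK j)) j k hne (hlhit k) (hlhit j)
      rw [hjk] at h1
      simp at h1
      linarith
    have hgap := gaps_shrink hKc (fun k => (t k : ℝ)) (fun k => (t k).2) l hlinj hlpos
    have hclose : ∀ n z, |‖V z (t n)‖ - ‖Y n z‖| ≤ ‖z‖ / ((n : ℝ) + 1) := by
      intro n z
      -- the evaluation functional
      let ev : C(unitInterval, 𝕜) →L[𝕜] 𝕜 := ContinuousMap.evalCLM 𝕜 (t n)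
      set v : X →L[𝕜] 𝕜 := ev.comp V with hv
      have hvz : ∀ z, v z = V z (t n) := fun z => rfl
      have hv1 : ‖v‖ ≤ 1 := by
        apply ContinuousLinearMap.opNorm_le_bound _ zero_le_one
        intro z
        rw [hvz, one_mul, ← hViso z]
        exact ContinuousMap.norm_coe_le_norm _ _
      obtain ⟨c, hc, hcv⟩ := hslicek n v (Y n) (x n) hv1 (hY n).le (hx n)
        (by rw [hvz, ht n]; linarith [hκ' n]) (hYxk n)
      have h1 : ‖V z (t n)‖ = ‖(c • v) z‖ := by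
        rw [_root_.smul_apply, norm_smul, hc, one_mul, hvz]
      rw [h1]
      calc |‖(c • v) z‖ - ‖Y n z‖| ≤ ‖(c • v) z - Y n z‖ := abs_norm_sub_norm_le _ _
        _ = ‖(c • v - Y n) z‖ := by rw [_root_.sub_apply]
        _ ≤ ‖c • v - Y n‖ * ‖z‖ := ContinuousLinearMap.le_opNorm _ _
        _ ≤ 1 / ((n:ℝ) + 1) * ‖z‖ := by gcongr
        _ = ‖z‖ / ((n:ℝ) + 1) := by ring
    -- the sets `F_s`
    have hFs : ∀ s : Icc (1/4 : ℝ) (1/2), ∀ D : Set Om, IsClopen D → Adm P η D →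
        (FF K V g s ∩ D).Nonempty := by
      intro s D hD hDa
      -- rational approximations
      have hq : ∀ j : ℕ, ∃ q : ℚ, (1 / 4 ≤ q ∧ q ≤ 1 / 2) ∧ |(q : ℝ) - s| ≤ 1 / ((j:ℝ) + 1) := by
        intro j
        have hs1 := s.2.1
        have hs2 := s.2.2
        rcases lt_or_ge (s : ℝ) (1 / 2) with h | h
        · obtain ⟨q, hq1, hq2⟩ := exists_rat_btwn (show (s:ℝ) < min (1 / 2) (s + 1 / ((j:ℝ) + 1)) from
            lt_min h (by have : (0:ℝ) < 1 / ((j:ℝ) + 1) := by positivity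
                         linarith))
          have h3 := hq2.trans_le (min_le_left _ _)
          have h4 := hq2.trans_le (min_le_right _ _)
          refine ⟨q, ⟨?_, ?_⟩, ?_⟩
          · have : ((1 / 4 : ℚ) : ℝ) ≤ (q : ℝ) := by push_cast; linarith
            exact_mod_cast this
          · have : (q : ℝ) ≤ ((1 / 2 : ℚ) : ℝ) := by push_cast; linarith
            exact_mod_cast this
          · rw [abs_le]; constructor
            · have : (0:ℝ) < 1 / ((j:ℝ) + 1) := by positivity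
              linarith
            · linarith
        · refine ⟨1 / 2, ⟨by norm_num, le_rfl⟩, ?_⟩
          have : (s : ℝ) = 1 / 2 := le_antisymm hs2 h
          rw [this]; push_cast; simp; positivity
      choose q hqm hqs using hq
      have hm : ∀ j, ∃ m, e m = (⟨D, hD, hDa⟩, ⟨q j, hqm j⟩) := fun j => he _
      choose m hm using hm
      set k : ℕ → ℕ := fun j => Nat.pair (m j) j with hk
      have htk : ∀ j, task (k j) = (⟨D, hD, hDa⟩, ⟨q j, hqm j⟩) := fun j => by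
        simp only [htask, hk, Nat.unpair_pair, hm]
      have hCk : ∀ j, C (k j) = D := fun j => by simp only [hCdef, htk]
      have hsk : ∀ j, sk (k j) = q j := fun j => by simp only [hskdef, htk]
      refine limit_point P.f P.hf hKc hD.isClosed V g k (fun j => Nat.right_le_pair _ _) l
        (fun j => ⟨hlK _, ?_⟩) t hgap Y sk hsk0 hYf ?_ hclose
      · rw [← hCk j]; exact hlC _
      · simp only [hsk]
        rw [tendsto_iff_norm_sub_tendsto_zero]
        refine squeeze_zero (fun j => norm_nonneg _) (fun j => hqs j)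
          tendsto_one_div_add_atTop_nhds_zero_nat
    have htopo : ∀ s : Icc (1/4 : ℝ) (1/2), ∃ σ ∈ FF K V g s, ∀ a ∈ LL P,
        ‖xx P a - xx P σ‖ ≤ η / 2 → a ∈ FF K V g s := fun s =>
      topo P hη hR (FF_closed hKc V g s) (hFs s)
    choose σ hσF hσ using htopo
    have hsepD := dual_separable hus
    obtain ⟨s, s', hss, hd⟩ := exists_close (fun s => xx P (σ s)) (show 0 < η / 2 by positivity)
    rw [dist_comm, dist_eq_norm] at hd
    have h1 := hσ s (σ s') (hKL (hσF s').1) hd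
    have h2 := hσF s'
    have h3 := h1.2 x0
    have h4 := h2.2 x0
    rw [h3] at h4
    exact hss (Subtype.ext (mul_right_cancel₀ hgx0.ne' h4))

end

section

variable {𝕜 : Type*} [RCLike 𝕜] {X : Type*} [NormedAddCommGroup X] [NormedSpace 𝕜 X]

/-- the tent function: `1` on `|s - t| ≤ r/2`, `0` for `|s - t| ≥ r` -/
noncomputable def tent (t r s : ℝ) : ℝ := max 0 (min 1 (2 - 2 * |s - t| / r))

lemma tent_cont (t r : ℝ) : Continuous (tent t r) := by unfold tent; fun_prop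

lemma tent_nonneg (t r s : ℝ) : 0 ≤ tent t r s := le_max_left _ _

lemma tent_le_one (t r s : ℝ) : tent t r s ≤ 1 := max_le zero_le_one (min_le_left _ _)

lemma tent_one {t r s : ℝ} (hr : 0 < r) (h : |s - t| ≤ r / 2) : tent t r s = 1 := by
  unfold tent
  have : 2 * |s - t| / r ≤ 1 := by rw [div_le_one hr]; linarith
  rw [min_eq_left (by linarith)]; simp

lemma tent_zero {t r s : ℝ} (hr : 0 < r) (h : r ≤ |s - t|) : tent t r s = 0 := by
  unfold tent
  have : 2 ≤ 2 * |s - t| / r := by rw [le_div_iff₀ hr]; linarith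
  rw [max_eq_left]
  exact (min_le_right _ _).trans (by linarith)

lemma zsm (z : X →L[𝕜] 𝕜) : (0:ℝ) • z = 0 := by ext; simp

lemma osm (z : X →L[𝕜] 𝕜) : (1:ℝ) • z = z := by ext; simp

/-- the local modification of a curve in the dual ball -/
lemma modify [FiniteDimensional 𝕜 X] (y : ℝ → X →L[𝕜] 𝕜) (hy : Continuous y)
    (hy1 : ∀ t, ‖y t‖ ≤ 1) {ρ : ℝ} (hρ : 0 < ρ) (F : Finset ℝ) (hF : ∀ t ∈ F, t ∈ Ioo (0:ℝ) 1) :
    ∃ v : ℝ → X →L[𝕜] 𝕜, Continuous v ∧ (∀ s, ‖v s‖ ≤ 1) ∧ (∀ s ∈ Icc (0:ℝ) 1, ‖v s - y s‖ ≤ 2 * ρ) ∧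
      ∀ t ∈ F, ∀ z : X →L[𝕜] 𝕜, ‖z‖ ≤ 1 → ‖z - y t‖ ≤ ρ → ∃ s ∈ Icc (0:ℝ) 1, v s = z := by
  classical
  have hprop : ProperSpace (X →L[𝕜] 𝕜) := FiniteDimensional.proper 𝕜 (X →L[𝕜] 𝕜)
  -- local continuity of `y`
  have hloc : ∀ t ∈ F, ∃ r : ℝ, 0 < r ∧ ∀ s, |s - t| < r → ‖y s - y t‖ ≤ ρ := by
    intro t _
    obtain ⟨r, hr, h⟩ := Metric.continuous_iff.1 hy t ρ hρ
    exact ⟨r, hr, fun s hs => by rw [← dist_eq_norm]; exact (h s (by rw [Real.dist_eq]; exact hs)).le⟩
  -- a common radius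
  have hrad : ∃ r : ℝ, 0 < r ∧ (∀ t ∈ F, ∀ s, |s - t| < r → ‖y s - y t‖ ≤ ρ) ∧
      (∀ t ∈ F, r ≤ t ∧ r ≤ 1 - t) ∧ ∀ t ∈ F, ∀ t' ∈ F, t ≠ t' → 2 * r ≤ |t - t'| := by
    have h1 : ∀ᶠ r in 𝓝[>] (0:ℝ), ∀ t ∈ F, ∀ s, |s - t| < r → ‖y s - y t‖ ≤ ρ := by
      rw [Filter.eventually_all_finset]
      intro t ht
      obtain ⟨r0, hr0, h⟩ := hloc t ht
      filter_upwards [Ioo_mem_nhdsGT hr0] with r hr s hs
      exact h s (hs.trans hr.2)
    have h2 : ∀ᶠ r in 𝓝[>] (0:ℝ), ∀ t ∈ F, r ≤ t ∧ r ≤ 1 - t := by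
      rw [Filter.eventually_all_finset]
      intro t ht
      have h3 := (hF t ht).1
      have h4 := (hF t ht).2
      filter_upwards [Ioo_mem_nhdsGT (lt_min h3 (sub_pos.2 h4))] with r hr
      have := hr.2.le
      exact ⟨this.trans (min_le_left _ _), this.trans (min_le_right _ _)⟩
    have h3 : ∀ᶠ r in 𝓝[>] (0:ℝ), ∀ t ∈ F, ∀ t' ∈ F, t ≠ t' → 2 * r ≤ |t - t'| := by
      rw [Filter.eventually_all_finset]
      intro t ht
      rw [Filter.eventually_all_finset]
      intro t' ht'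
      by_cases htt : t = t'
      · exact Eventually.of_forall fun r h => absurd htt h
      · have h5 : 0 < |t - t'| / 2 := by
          have := abs_pos.2 (sub_ne_zero.2 htt)
          positivity
        filter_upwards [Ioo_mem_nhdsGT h5] with r hr _
        linarith [hr.2]
    obtain ⟨r, hr1, hr2, hr3, hr4⟩ := (h1.and (h2.and (h3.and self_mem_nhdsWithin))).exists
    exact ⟨r, hr4, hr1, hr2, hr3⟩
  obtain ⟨r, hr, hry, hr01, hrsep⟩ := hrad
  -- Peano curves onto the balls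
  have hpe : ∀ t : ℝ, ∃ p : ℝ → X →L[𝕜] 𝕜, Continuous p ∧
      (∀ s, p s ∈ Metric.closedBall (y t) ρ ∩ Metric.closedBall 0 1) ∧
      ∀ z ∈ Metric.closedBall (y t) ρ ∩ Metric.closedBall 0 1, ∃ s ∈ Icc (0:ℝ) 1, p s = z := by
    intro t
    apply peano
    · exact (isCompact_closedBall _ _).inter (isCompact_closedBall _ _)
    · exact (convex_closedBall _ _).inter (convex_closedBall _ _)
    · exact ⟨y t, by simp [hρ.le, hy1 t]⟩
  choose p hpc hpm hps using hpe
  set sc : ℝ → ℝ → ℝ := fun t s => (s - (t - r / 2)) / r with hsc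
  set v : ℝ → X →L[𝕜] 𝕜 := fun s => y s + ∑ t ∈ F, tent t r s • (p t (sc t s) - y s) with hv
  have hvc : Continuous v := by
    apply hy.add
    apply continuous_finsetSum
    intro t _
    apply (tent_cont t r).smul
    apply Continuous.sub _ hy
    apply (hpc t).comp
    simp only [hsc]
    fun_prop
  -- description of `v`
  have hv1 : ∀ s, (∀ t ∈ F, r ≤ |s - t|) → v s = y s := by
    intro s hs
    simp only [hv]
    rw [Finset.sum_eq_zero, add_zero]
    intro t ht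
    rw [tent_zero hr (hs t ht)]; exact zsm _
  have hv2 : ∀ s, ∀ t ∈ F, |s - t| < r → v s = (1 - tent t r s) • y s + tent t r s • p t (sc t s) := by
    intro s t ht hst
    simp only [hv]
    rw [Finset.sum_eq_single_of_mem t ht]
    · module
    · intro t' ht' hne
      have h1 := hrsep t' ht' t ht hne
      have h2 : r ≤ |s - t'| := by
        have h3 : |t' - t| ≤ |s - t'| + |s - t| := by
          have := abs_sub_le t' s t
          rw [abs_sub_comm t' s] at this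
          exact this
        linarith
      rw [tent_zero hr h2]; exact zsm _
  have hpn : ∀ t s, ‖p t s‖ ≤ 1 := fun t s => by
    have := (hpm t s).2
    simpa using this
  have hpd : ∀ t s, ‖p t s - y t‖ ≤ ρ := fun t s => by
    have := (hpm t s).1
    rwa [Metric.mem_closedBall, dist_eq_norm] at this
  refine ⟨v, hvc, ?_, ?_, ?_⟩
  · intro s
    by_cases h : ∀ t ∈ F, r ≤ |s - t|
    · rw [hv1 s h]; exact hy1 s
    · push Not at h
      obtain ⟨t, ht, hst⟩ := h
      rw [hv2 s t ht hst]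
      have h1 := tent_nonneg t r s
      have h2 := tent_le_one t r s
      calc _ ≤ ‖(1 - tent t r s) • y s‖ + ‖tent t r s • p t (sc t s)‖ := norm_add_le _ _
        _ = (1 - tent t r s) * ‖y s‖ + tent t r s * ‖p t (sc t s)‖ := by
            rw [norm_smul, norm_smul, Real.norm_of_nonneg h1,
              Real.norm_of_nonneg (by linarith)]
        _ ≤ (1 - tent t r s) * 1 + tent t r s * 1 := by
            have := hy1 s
            have := hpn t (sc t s)
            gcongr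
        _ = 1 := by ring
  · intro s _
    by_cases h : ∀ t ∈ F, r ≤ |s - t|
    · rw [hv1 s h, sub_self, norm_zero]; positivity
    · push Not at h
      obtain ⟨t, ht, hst⟩ := h
      rw [hv2 s t ht hst]
      have h1 := tent_nonneg t r s
      have h2 := tent_le_one t r s
      have e : (1 - tent t r s) • y s + tent t r s • p t (sc t s) - y s
          = tent t r s • (p t (sc t s) - y s) := by module
      rw [e, norm_smul, Real.norm_of_nonneg h1]
      have h3 : ‖p t (sc t s) - y s‖ ≤ 2 * ρ := by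
        have h4 := hpd t (sc t s)
        have h5 := hry t ht s hst
        have e2 : p t (sc t s) - y s = (p t (sc t s) - y t) - (y s - y t) := by abel
        rw [e2]
        refine (norm_sub_le _ _).trans ?_
        linarith
      calc tent t r s * ‖p t (sc t s) - y s‖ ≤ 1 * (2 * ρ) := by gcongr
        _ = _ := one_mul _
  · intro t ht z hz1 hz2
    obtain ⟨s0, hs0, hs0z⟩ := hps t z ⟨by rw [Metric.mem_closedBall, dist_eq_norm]; exact hz2,
      by simpa using hz1⟩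
    have hrt := hr01 t ht
    set s := t - r / 2 + r * s0 with hs
    have hs1 : |s - t| ≤ r / 2 := by
      rw [abs_le, hs]
      constructor <;> nlinarith [hs0.1, hs0.2]
    refine ⟨s, ⟨?_, ?_⟩, ?_⟩
    · rw [abs_le] at hs1; linarith [hs1.1, hrt.1]
    · rw [abs_le] at hs1; linarith [hs1.2, hrt.2]
    · rw [hv2 s t ht (by linarith), tent_one hr hs1]
      have e : sc t s = s0 := by simp only [hsc, hs]; field_simp; ring
      rw [e, hs0z, osm, sub_self, zsm, zero_add]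

end

section

variable {𝕜 : Type*} [RCLike 𝕜] {X : Type*} [NormedAddCommGroup X] [NormedSpace 𝕜 X]

lemma isometric_of {V : X →L[𝕜] C(unitInterval, 𝕜)} (h1 : ∀ f, ‖V f‖ ≤ ‖f‖)
    (h2 : ∀ f, f ≠ 0 → ∃ t, ‖f‖ ≤ ‖V f t‖) : EpsIsometric 0 V := by
  intro f
  rw [sub_zero, one_mul, add_zero, one_mul]
  refine ⟨?_, h1 f⟩
  by_cases hf : f = 0
  · rw [hf]; simp
  · obtain ⟨t, ht⟩ := h2 f hf
    exact ht.trans (ContinuousMap.norm_coe_le_norm _ _)

theorem positive [FiniteDimensional 𝕜 X] (hus : UniformlySmooth 𝕜 X) {d : ℝ} (hd : 0 < d) :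
    ∃ ε0 : ℝ, 0 < ε0 ∧ ∀ ε : ℝ, 0 < ε → ε < ε0 → ∀ T : X →L[𝕜] C(unitInterval, 𝕜),
      EpsIsometric ε T → ∃ V : X →L[𝕜] C(unitInterval, 𝕜), EpsIsometric 0 V ∧ ‖T - V‖ ≤ d := by
  obtain ⟨κ, hκ, hslice⟩ := slice' hus (show 0 < d / 8 by positivity)
  refine ⟨min (κ / 4) (min (d / 8) (1 / 2)), by positivity, fun ε hε0 hε T hT => ?_⟩
  have hεκ : ε < κ / 4 := hε.trans_le (min_le_left _ _)
  have hεd : ε < d / 8 := hε.trans_le ((min_le_right _ _).trans (min_le_left _ _))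
  have hε1 : ε < 1 / 2 := hε.trans_le ((min_le_right _ _).trans (min_le_right _ _))
  have hprop : ProperSpace (X →L[𝕜] 𝕜) := FiniteDimensional.proper 𝕜 (X →L[𝕜] 𝕜)
  set pj : ℝ → unitInterval := projIcc 0 1 zero_le_one with hpj
  have hpjc : Continuous pj := continuous_projIcc
  set x : ℝ → X →L[𝕜] 𝕜 := fun s => (ContinuousMap.evalCLM 𝕜 (pj s)).comp T with hx
  have hxa : ∀ s f, x s f = T f (pj s) := fun s f => rfl
  set c0 : 𝕜 := (((1 + ε)⁻¹ : ℝ) : 𝕜) with hc0
  have hc0n : ‖c0‖ = (1 + ε)⁻¹ := by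
    rw [hc0, RCLike.norm_ofReal, abs_of_pos (by positivity)]
  set y : ℝ → X →L[𝕜] 𝕜 := fun s => c0 • x s with hy
  have hyc : Continuous y := by
    rw [continuous_clm_apply]
    intro f
    have : (fun s => y s f) = fun s => c0 * T f (pj s) := rfl
    rw [this]
    exact continuous_const.mul ((T f).continuous.comp hpjc)
  have hxn : ∀ s, ‖x s‖ ≤ 1 + ε := by
    intro s
    apply ContinuousLinearMap.opNorm_le_bound _ (by positivity)
    intro f
    rw [hxa]
    exact (ContinuousMap.norm_coe_le_norm _ _).trans (hT f).2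
  have hyn : ∀ s, ‖y s‖ ≤ 1 := by
    intro s
    have h1 : ‖y s‖ = (1 + ε)⁻¹ * ‖x s‖ := by rw [← hc0n, ← norm_smul]
    rw [h1, inv_mul_le_iff₀ (by positivity), mul_one]
    exact hxn s
  have hxy : ∀ s, ‖x s - y s‖ ≤ ε := by
    intro s
    have h1 : x s - y s = (1 - c0) • x s := by
      ext f
      simp only [hy, _root_.sub_apply, _root_.smul_apply, smul_eq_mul]; ring
    have h2 : ‖(1:𝕜) - c0‖ = 1 - (1 + ε)⁻¹ := by
      have e : (1:𝕜) - c0 = ((1 - (1 + ε)⁻¹ : ℝ) : 𝕜) := by rw [hc0]; push_cast; ring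
      have e2 : (1 + ε)⁻¹ ≤ 1 := inv_le_one_of_one_le₀ (by linarith)
      rw [e, RCLike.norm_ofReal, abs_of_nonneg (by linarith)]
    rw [h1, norm_smul, h2]
    calc (1 - (1 + ε)⁻¹) * ‖x s‖ ≤ (1 - (1 + ε)⁻¹) * (1 + ε) := by
          have e2 : (1 + ε)⁻¹ ≤ 1 := inv_le_one_of_one_le₀ (by linarith)
          have := hxn s
          gcongr
      _ = ε := by field_simp; ring
  -- every functional is close to the curve
  have hkey : ∀ Y : X →L[𝕜] 𝕜, ‖Y‖ = 1 → ∃ t ∈ Ioo (0:ℝ) 1, ∃ c : 𝕜, ‖c‖ = 1 ∧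
      ‖c • y t - Y‖ < d / 4 := by
    intro Y hY
    obtain ⟨f, hf, hfY⟩ := exists_near_norming Y hY hκ
    obtain ⟨t, ht⟩ := exists_norm_attained (T f)
    have hpt : pj (t : ℝ) = t := projIcc_val zero_le_one t
    have h1 : 1 - κ < ‖y t f‖ := by
      have h2 : ‖y t f‖ = (1 + ε)⁻¹ * ‖T f‖ := by
        have : y t f = c0 * T f (pj t) := rfl
        rw [this, norm_mul, hc0n, hpt, ht]
      rw [h2, inv_mul_eq_div, lt_div_iff₀ (by positivity)]
      have h3 := (hT f).1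
      rw [hf, mul_one] at h3
      nlinarith
    obtain ⟨c, hc, hcY⟩ := hslice (y t) Y f (hyn t) hY.le hf h1 hfY
    -- move to the open interval
    have hcl : (t : ℝ) ∈ closure (Ioo (0:ℝ) 1) := by
      rw [closure_Ioo zero_ne_one]; exact t.2
    have hcont : Continuous fun s => ‖c • y s - Y‖ := by fun_prop
    have hev : ∀ᶠ s in 𝓝 (t:ℝ), ‖c • y s - Y‖ < d / 4 :=
      hcont.continuousAt.eventually (gt_mem_nhds (by linarith))
    obtain ⟨s, hs1, hs2⟩ := mem_closure_iff_nhds.1 hcl _ hev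
    exact ⟨s, hs2, c, hc, hs1⟩
  -- finite cover of the sphere
  have hS : IsCompact (Metric.sphere (0 : X →L[𝕜] 𝕜) 1) := isCompact_sphere _ _
  obtain ⟨F0, hF0⟩ := hS.elim_finite_subcover
    (fun t : Ioo (0:ℝ) 1 => {Y : X →L[𝕜] 𝕜 | ∃ c : 𝕜, ‖c‖ = 1 ∧ ‖c • y t - Y‖ < d / 4})
    (by
      intro t
      have : {Y : X →L[𝕜] 𝕜 | ∃ c : 𝕜, ‖c‖ = 1 ∧ ‖c • y t - Y‖ < d / 4}
          = ⋃ c ∈ {c : 𝕜 | ‖c‖ = 1}, {Y : X →L[𝕜] 𝕜 | ‖c • y t - Y‖ < d / 4} := by
        ext Y; simp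
      rw [this]
      apply isOpen_biUnion
      intro c _
      exact isOpen_lt (by fun_prop) continuous_const)
    (by
      intro Y hY
      obtain ⟨t, ht, c, hc⟩ := hkey Y (by simpa using hY)
      rw [mem_iUnion]
      exact ⟨⟨t, ht⟩, c, hc⟩)
  obtain ⟨v, hvc, hvn, hvy, hvs⟩ := modify y hyc hyn (show 0 < d / 4 by positivity)
    (F0.image Subtype.val) (by
      intro t ht
      obtain ⟨t', _, rfl⟩ := Finset.mem_image.1 ht
      exact t'.2)
  obtain ⟨V, hV1, hV2⟩ := exists_op v (fun f => by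
    have : Continuous fun t => v t f := (continuous_clm_apply.1 hvc) f
    exact this.continuousOn) zero_le_one (fun t _ => hvn t)
  refine ⟨V, isometric_of (fun f => by simpa using hV2 f) ?_, ?_⟩
  · intro f hf
    obtain ⟨Y, hY1, hY2⟩ := exists_dual_vector 𝕜 f (norm_ne_zero_iff.2 hf)
    have h1 := hF0 (show Y ∈ Metric.sphere (0 : X →L[𝕜] 𝕜) 1 by simpa using hY1)
    simp only [mem_iUnion] at h1
    obtain ⟨t, ht, c, hc, hct⟩ := h1
    have hcne : c ≠ 0 := by
      intro h; rw [h] at hc; simp at hc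
    obtain ⟨s, hs, hsz⟩ := hvs t (Finset.mem_image_of_mem _ ht) (c⁻¹ • Y)
      (by rw [norm_smul, norm_inv, hc, hY1]; norm_num) (by
        have e : c⁻¹ • Y - y t = c⁻¹ • (Y - c • y t) := by
          rw [smul_sub, smul_smul, inv_mul_cancel₀ hcne, one_smul]
        rw [e, norm_smul, norm_inv, hc, inv_one, one_mul, norm_sub_rev]
        exact hct.le)
    refine ⟨⟨s, hs⟩, ?_⟩
    rw [hV1, hsz, _root_.smul_apply, norm_smul, norm_inv, hc, hY2]
    simp
  · apply ContinuousLinearMap.opNorm_le_bound _ hd.le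
    intro f
    rw [ContinuousMap.norm_le _ (by positivity)]
    intro t
    have hpt : pj (t : ℝ) = t := projIcc_val zero_le_one t
    have e : ((T - V) f) t = (x t - v t) f := by
      rw [_root_.sub_apply, ContinuousMap.sub_apply, _root_.sub_apply, hV1, hxa, hpt]
    rw [e]
    refine ((x t - v t).le_opNorm f).trans ?_
    have h1 : ‖x t - v t‖ ≤ d := by
      have e2 : x t - v t = (x t - y t) - (v t - y t) := by abel
      rw [e2]
      refine (norm_sub_le _ _).trans ?_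
      have h3 := hxy t
      have h4 := hvy t t.2
      linarith
    gcongr

/-- finite-dimensional spaces embed isometrically -/
lemma exists_isometric [FiniteDimensional 𝕜 X] :
    ∃ V : X →L[𝕜] C(unitInterval, 𝕜), EpsIsometric 0 V := by
  have hprop : ProperSpace (X →L[𝕜] 𝕜) := FiniteDimensional.proper 𝕜 (X →L[𝕜] 𝕜)
  obtain ⟨p, hpc, hpB, hps⟩ := peano (isCompact_closedBall (0 : X →L[𝕜] 𝕜) 1)
    (convex_closedBall _ _) ⟨0, by simp⟩
  obtain ⟨V, hV1, hV2⟩ := exists_op p (fun f => by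
    have : Continuous fun t => p t f := (continuous_clm_apply.1 hpc) f
    exact this.continuousOn) zero_le_one (fun t _ => by simpa using hpB t)
  refine ⟨V, isometric_of (fun f => by simpa using hV2 f) ?_⟩
  intro f hf
  obtain ⟨Y, hY1, hY2⟩ := exists_dual_vector 𝕜 f (norm_ne_zero_iff.2 hf)
  obtain ⟨t, ht, htY⟩ := hps Y (by simp [hY1])
  refine ⟨⟨t, ht⟩, ?_⟩
  rw [hV1, htY, hY2]
  simp

theorem iap_of_finiteDimensional [FiniteDimensional 𝕜 X] (hus : UniformlySmooth 𝕜 X) :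
    IAP 𝕜 X C(unitInterval, 𝕜) := by
  -- the set of admissible bounds
  set S : ℝ → Set ℝ := fun ε => {d | 0 ≤ d ∧ ∀ T : X →L[𝕜] C(unitInterval, 𝕜), EpsIsometric ε T →
    ∃ V : X →L[𝕜] C(unitInterval, 𝕜), EpsIsometric 0 V ∧ ‖T - V‖ ≤ d} with hS
  have hbdd : ∀ ε, BddBelow (S ε) := fun ε => ⟨0, fun d hd => hd.1⟩
  have h3 : ∀ ε ∈ Ioo (0:ℝ) 1, (3:ℝ) ∈ S ε := by
    intro ε hε
    refine ⟨by norm_num, fun T hT => ?_⟩
    obtain ⟨V, hV⟩ := exists_isometric (𝕜 := 𝕜) (X := X)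
    refine ⟨V, hV, ?_⟩
    have hTn : ‖T‖ ≤ 2 := by
      apply ContinuousLinearMap.opNorm_le_bound _ (by norm_num)
      intro f
      refine (hT f).2.trans ?_
      have := hε.2
      gcongr
      linarith
    have hVn : ‖V‖ ≤ 1 := by
      apply ContinuousLinearMap.opNorm_le_bound _ (by norm_num)
      intro f
      have := (hV f).2
      simpa using this
    have h4 : ‖T - V‖ ≤ ‖T‖ + ‖V‖ := norm_sub_le T V
    linarith
  refine ⟨fun ε => sInf (S ε) + ε, ?_, ?_, ?_⟩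
  · intro ε hε
    have : 0 ≤ sInf (S ε) := Real.sInf_nonneg fun d hd => hd.1
    linarith [hε.1]
  · rw [Metric.tendsto_nhdsWithin_nhds]
    intro d hd
    obtain ⟨ε0, hε0, h⟩ := positive (𝕜 := 𝕜) (X := X) hus (show 0 < d / 2 by positivity)
    refine ⟨min ε0 (d / 2), by positivity, fun {ε} hε hεd => ?_⟩
    have hε0' : 0 < ε := hε
    rw [Real.dist_eq, sub_zero, abs_of_pos hε0'] at hεd
    have h1 : d / 2 ∈ S ε := ⟨by positivity, h ε hε0' (hεd.trans_le (min_le_left _ _))⟩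
    have h2 : sInf (S ε) ≤ d / 2 := csInf_le (hbdd ε) h1
    have h4 : 0 ≤ sInf (S ε) := Real.sInf_nonneg fun d hd => hd.1
    have h5 := hεd.trans_le (min_le_right ε0 (d / 2))
    rw [Real.dist_eq, sub_zero, abs_of_nonneg (by linarith)]
    linarith
  · intro ε hε T hT
    have hlt : sInf (S ε) < sInf (S ε) + ε := by linarith [hε.1]
    obtain ⟨d, hd, hdlt⟩ := exists_lt_of_csInf_lt ⟨3, h3 ε hε⟩ hlt
    obtain ⟨V, hV, hVd⟩ := hd.2 T hT
    exact ⟨V, hV, hVd.trans hdlt.le⟩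

/-- an `ε`-isometric operator into `C[0,1]` forces separability -/
lemma separable_of_epsIsometric {ε : ℝ} (hε : ε < 1) {T : X →L[𝕜] C(unitInterval, 𝕜)}
    (hT : EpsIsometric ε T) : TopologicalSpace.SeparableSpace X := by
  have hanti : AntilipschitzWith (Real.toNNReal (1 - ε)⁻¹) T := by
    apply T.antilipschitz_of_bound
    intro x
    have h1 := (hT x).1
    have hpos : 0 < 1 - ε := by linarith
    rw [Real.coe_toNNReal _ (by positivity), inv_mul_eq_div, le_div_iff₀ hpos]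
    linarith
  have hemb : IsEmbedding T := (hanti.isUniformEmbedding T.uniformContinuous).isEmbedding
  have : SecondCountableTopology X := hemb.secondCountableTopology
  infer_instance

theorem main (hus : UniformlySmooth 𝕜 X) : IAP 𝕜 X C(unitInterval, 𝕜) ↔
    (FiniteDimensional 𝕜 X ∨ ¬ TopologicalSpace.SeparableSpace X) := by
  constructor
  · rintro ⟨δ, -, hδ, h⟩
    by_contra hcon
    push Not at hcon
    obtain ⟨hinf, hsep⟩ := hcon
    obtain ⟨δ0, hδ0, hneg⟩ := negative hus hinf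
    have h1 : ∀ᶠ ε in 𝓝[>] (0:ℝ), δ ε < δ0 := hδ.eventually (gt_mem_nhds hδ0)
    have h2 : ∀ᶠ ε in 𝓝[>] (0:ℝ), ε ∈ Ioo (0:ℝ) 1 := Ioo_mem_nhdsGT one_pos
    obtain ⟨ε, hε1, hε2⟩ := (h1.and h2).exists
    obtain ⟨T, hT, hTV⟩ := hneg ε hε2.1
    obtain ⟨V, hV, hVd⟩ := h ε hε2 T hT
    exact hTV V hV (hVd.trans hε1.le)
  · rintro (h | h)
    · exact iap_of_finiteDimensional hus
    · refine ⟨fun ε => ε, fun ε hε => hε.1.le, ?_, ?_⟩
      · exact tendsto_id.mono_left nhdsWithin_le_nhds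
      · intro ε hε T hT
        exact absurd (separable_of_epsIsometric hε.2 hT) h

end

/-- **Main theorem** (answer to Q2). For a uniformly smooth normed space `X` (complete or not)
over `𝕜 = ℝ` or `ℂ`, `𝔹(X, C[0,1])` has the isometric approximation property if and only if `X`
is finite-dimensional or not separable. -/
theorem result (𝕜 : Type*) [RCLike 𝕜] (X : Type*) [NormedAddCommGroup X] [NormedSpace 𝕜 X]
    (hX : UniformlySmooth 𝕜 X) :
    IAP 𝕜 X C(unitInterval, 𝕜) ↔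
      (FiniteDimensional 𝕜 X ∨ ¬ TopologicalSpace.SeparableSpace X) :=
  main hX

end Pool.H99.MV.UniformlySmoothC01
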